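import Pool.Agent.Irr37.Defs

/-!
The upper half of MP_033e98_co: `n(p) ≤ 2p+1` for `p ≥ 3` and `n(2) = 4`.
-/

open Finset

namespace Irr37

section General

variable {V : Type*} [Fintype V]

open Classical in
/-- the neighbours of `v` as a finset -/
noncomputable def nb (G : SimpleGraph V) (v : V) : Finset V := univ.filter (fun u => G.Adj v u)

theorem mem_nb {G : SimpleGraph V} {v u : V} : u ∈ nb G v ↔ G.Adj v u := by
  classical
  simp [nb]

theorem wdeg_eq (G : SimpleGraph V) (w : Sym2 V → ℕ) (v : V) :
    wdeg G w v = ∑ u ∈ nb G v, w s(v, u) := rfl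

theorem degree_eq (G : SimpleGraph V) (v : V) [Fintype (G.neighborSet v)] :
    G.degree v = (nb G v).card := by
  classical
  rw [← SimpleGraph.card_neighborFinset_eq_degree]
  congr 1
  ext u
  simp [mem_nb]

open Classical in
/-- the leaves -/
noncomputable def leafSet (G : SimpleGraph V) : Finset V := univ.filter (fun v => (nb G v).card = 1)

open Classical in
/-- the vertices of degree two -/
noncomputable def twoSet (G : SimpleGraph V) : Finset V := univ.filter (fun v => (nb G v).card = 2)

theorem mem_leafSet {G : SimpleGraph V} {v : V} : v ∈ leafSet G ↔ (nb G v).card = 1 := by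
  classical
  simp [leafSet]

theorem mem_twoSet {G : SimpleGraph V} {v : V} : v ∈ twoSet G ↔ (nb G v).card = 2 := by
  classical
  simp [twoSet]

theorem numLeaves_eq (G : SimpleGraph V) : numLeaves G = (leafSet G).card := by
  classical
  unfold numLeaves
  congr 1
  ext v
  simp only [mem_filter, mem_univ, true_and, mem_leafSet]
  rw [degree_eq]

/-- the weighted degree of a leaf is a weight -/
theorem wdeg_leaf_mem {G : SimpleGraph V} {k : ℕ} {w : Sym2 V → ℕ}
    (h : ∀ e ∈ G.edgeSet, 1 ≤ w e ∧ w e ≤ k) {v : V}
    (hv : v ∈ leafSet G) : wdeg G w v ∈ Icc 1 k := by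
  obtain ⟨u, hu⟩ := Finset.card_eq_one.1 (mem_leafSet.1 hv)
  have hadj : G.Adj v u := mem_nb.1 (by rw [hu]; simp)
  rw [wdeg_eq, hu, Finset.sum_singleton, mem_Icc]
  exact h _ (by simpa using hadj)

theorem wdeg_two_le {G : SimpleGraph V} {k : ℕ} {w : Sym2 V → ℕ}
    (h : ∀ e ∈ G.edgeSet, 1 ≤ w e ∧ w e ≤ k) {v : V}
    (hv : v ∈ twoSet G) : 1 ≤ wdeg G w v ∧ wdeg G w v ≤ 2 * k := by
  classical
  obtain ⟨a, b, hab, hu⟩ := Finset.card_eq_two.1 (mem_twoSet.1 hv)
  have ha : G.Adj v a := mem_nb.1 (by rw [hu]; simp)
  have hb : G.Adj v b := mem_nb.1 (by rw [hu]; simp)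
  rw [wdeg_eq, hu, Finset.sum_pair hab]
  have h1 := h s(v, a) (by simpa using ha)
  have h2 := h s(v, b) (by simpa using hb)
  omega

/-- (A1) the number of leaves is a lower bound for the largest weight -/
theorem numLeaves_le {G : SimpleGraph V} {k : ℕ} {w : Sym2 V → ℕ} (h : IrrWeighting G k w) :
    numLeaves G ≤ k := by
  rw [numLeaves_eq]
  have := Finset.card_le_card_of_injOn (s := leafSet G) (t := Icc 1 k) (wdeg G w)
    (fun v hv => wdeg_leaf_mem h.1 hv) (h.2.injOn)
  simpa using this

theorem numLeaves_le_strength {G : SimpleGraph V} (h : ∃ k w, IrrWeighting G k w) :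
    numLeaves G ≤ strength G := by
  obtain ⟨w, hw⟩ := Nat.sInf_mem (s := {k | ∃ w, IrrWeighting G k w}) h
  exact numLeaves_le hw

/-- if there is an irregular weighting with weights at most the number of leaves then the
strength equals the number of leaves -/
theorem strength_eq_of_irr {G : SimpleGraph V} {p : ℕ} {w : Sym2 V → ℕ} (h : IrrWeighting G p w)
    (hp : numLeaves G = p) : strength G = p := by
  apply le_antisymm
  · exact Nat.sInf_le ⟨w, h⟩
  · rw [← hp]
    exact numLeaves_le_strength ⟨p, w, h⟩

theorem exists_irr_of_strength {G : SimpleGraph V} {p : ℕ} (hp : 1 ≤ p) (h : strength G = p) :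
    ∃ w, IrrWeighting G p w := by
  have hne : {k | ∃ w, IrrWeighting G k w}.Nonempty := by
    by_contra hcon
    rw [Set.not_nonempty_iff_eq_empty] at hcon
    have : strength G = 0 := by
      unfold strength
      rw [hcon]
      simp
    omega
  have := Nat.sInf_mem hne
  have h2 : sInf {k | ∃ w, IrrWeighting G k w} = p := h
  rw [h2] at this
  exact this

/-- if the largest weight is the number of leaves, then there are at most that many vertices of
degree two -/
theorem card_twoSet_le {G : SimpleGraph V} {k : ℕ} {w : Sym2 V → ℕ} (h : IrrWeighting G k w)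
    (hk : numLeaves G = k) : (twoSet G).card ≤ k := by
  classical
  -- the leaves take all the weights
  have himg : (leafSet G).image (wdeg G w) = Icc 1 k := by
    apply Finset.eq_of_subset_of_card_le
    · intro t ht
      obtain ⟨v, hv, rfl⟩ := Finset.mem_image.1 ht
      exact wdeg_leaf_mem h.1 hv
    · rw [Finset.card_image_of_injective _ h.2, ← numLeaves_eq, hk]
      simp
  have hmap : ∀ v ∈ twoSet G, wdeg G w v ∈ Icc (k + 1) (2 * k) := by
    intro v hv
    have h1 := wdeg_two_le h.1 hv
    rw [mem_Icc]
    refine ⟨?_, h1.2⟩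
    by_contra hlt
    have hmem : wdeg G w v ∈ Icc 1 k := by
      rw [mem_Icc]; omega
    rw [← himg] at hmem
    obtain ⟨u, hu, huv⟩ := Finset.mem_image.1 hmem
    have : u = v := h.2 huv
    subst this
    have e1 := mem_leafSet.1 hu
    have e2 := mem_twoSet.1 hv
    omega
  have := Finset.card_le_card_of_injOn (s := twoSet G) (t := Icc (k + 1) (2 * k)) (wdeg G w)
    hmap h.2.injOn
  simp at this
  omega

end General

/-! ### The broom -/

/-- the broom with handle `0 - 1 - ... - a` and brush `a+1, ..., n-1` attached to `a` -/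
def broom (n a : ℕ) : SimpleGraph (Fin n) where
  Adj u v := (u.1 < v.1 ∧ u.1 = min (v.1 - 1) a) ∨ (v.1 < u.1 ∧ v.1 = min (u.1 - 1) a)
  symm := ⟨fun u v h => by rcases h with h | h <;> [right; left] <;> exact h⟩
  loopless := ⟨fun u h => by rcases h with h | h <;> exact lt_irrefl _ h.1⟩

theorem broom_adj {n a : ℕ} {u v : Fin n} : (broom n a).Adj u v ↔
    (u.1 < v.1 ∧ u.1 = min (v.1 - 1) a) ∨ (v.1 < u.1 ∧ v.1 = min (u.1 - 1) a) := Iff.rfl

theorem broom_isTree (n a : ℕ) (hn : 1 ≤ n) : (broom n a).IsTree := by
  classical
  have hconn : (broom n a).Connected := by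
    have : Nonempty (Fin n) := ⟨⟨0, hn⟩⟩
    have h0 : ∀ m : ℕ, ∀ (hm : m < n), (broom n a).Reachable ⟨0, hn⟩ ⟨m, hm⟩ := by
      intro m
      induction m using Nat.strong_induction_on with
      | _ m ih =>
        intro hm
        rcases Nat.eq_zero_or_pos m with h | h
        · subst h; exact SimpleGraph.Reachable.refl _
        · have hlt : min (m - 1) a < m := by omega
          refine (ih _ hlt (by omega)).trans (SimpleGraph.Adj.reachable ?_)
          rw [broom_adj]
          left
          exact ⟨hlt, rfl⟩
    exact SimpleGraph.Connected.mk (fun u v => (h0 u.1 u.2).symm.trans (h0 v.1 v.2))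
  refine (SimpleGraph.isTree_iff_connected_and_card).2 ⟨hconn, ?_⟩
  have h1 : Nat.card (Fin n) ≤ Nat.card (broom n a).edgeSet + 1 := hconn.card_vert_le_card_edgeSet_add_one
  have h2 : Nat.card (broom n a).edgeSet ≤ n - 1 := by
    have hsub : (broom n a).edgeSet ⊆ Set.range (fun j : Fin (n - 1) =>
        s((⟨j.1 + 1, by omega⟩ : Fin n), (⟨min j.1 a, by omega⟩ : Fin n))) := by
      intro e he
      induction e using Sym2.ind with
      | _ u v =>
        rw [SimpleGraph.mem_edgeSet, broom_adj] at he
        rcases he with he | he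
        · refine ⟨⟨v.1 - 1, by omega⟩, ?_⟩
          have e1 : (⟨v.1 - 1 + 1, by omega⟩ : Fin n) = v := Fin.ext (by simp; omega)
          have e2 : (⟨min (v.1 - 1) a, by omega⟩ : Fin n) = u := Fin.ext (by simp; omega)
          simp only [e1, e2]
          exact Sym2.eq_swap
        · refine ⟨⟨u.1 - 1, by omega⟩, ?_⟩
          have e1 : (⟨u.1 - 1 + 1, by omega⟩ : Fin n) = u := Fin.ext (by simp; omega)
          have e2 : (⟨min (u.1 - 1) a, by omega⟩ : Fin n) = v := Fin.ext (by simp; omega)
          simp only [e1, e2]
    calc Nat.card (broom n a).edgeSet ≤ Nat.card (Set.range (fun j : Fin (n - 1) =>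
        s((⟨j.1 + 1, by omega⟩ : Fin n), (⟨min j.1 a, by omega⟩ : Fin n)))) :=
          Nat.card_mono (Set.toFinite _) hsub
      _ ≤ Nat.card (Fin (n - 1)) := Finite.card_range_le _
      _ = n - 1 := by simp
  rw [Nat.card_eq_fintype_card (α := Fin n), Fintype.card_fin] at h1 ⊢
  omega

theorem nb_zero {n a : ℕ} (ha : 1 ≤ a) (hn : a < n) :
    nb (broom n a) ⟨0, by omega⟩ = {⟨1, by omega⟩} := by
  ext u
  rw [mem_nb, broom_adj, Finset.mem_singleton, Fin.ext_iff]
  simp only
  omega

theorem nb_mid {n a v : ℕ} (hv : 1 ≤ v) (hva : v < a) (hn : a < n) :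
    nb (broom n a) ⟨v, by omega⟩ = {⟨v - 1, by omega⟩, ⟨v + 1, by omega⟩} := by
  ext u
  rw [mem_nb, broom_adj, Finset.mem_insert, Finset.mem_singleton, Fin.ext_iff, Fin.ext_iff]
  simp only
  omega

theorem nb_brush {n a v : ℕ} (hva : a < v) (hn : v < n) :
    nb (broom n a) ⟨v, by omega⟩ = {⟨a, by omega⟩} := by
  ext u
  rw [mem_nb, broom_adj, Finset.mem_singleton, Fin.ext_iff]
  simp only
  omega

/-- the embedding `i ↦ c + i` -/
def sh (m n c : ℕ) (h : c + m ≤ n) : Fin m ↪ Fin n where
  toFun i := ⟨c + i.1, by omega⟩
  inj' i j hij := by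
    rw [Fin.mk.injEq] at hij
    exact Fin.ext (by omega)

theorem mem_sh {m n c : ℕ} {h : c + m ≤ n} {v : Fin n} :
    v ∈ (univ : Finset (Fin m)).map (sh m n c h) ↔ c ≤ v.1 ∧ v.1 < c + m := by
  rw [Finset.mem_map]
  constructor
  · rintro ⟨i, -, rfl⟩
    show c ≤ c + i.1 ∧ c + i.1 < c + m
    omega
  · rintro ⟨h1, h2⟩
    refine ⟨⟨v.1 - c, by omega⟩, mem_univ _, Fin.ext ?_⟩
    show c + (v.1 - c) = v.1
    omega

theorem card_sh {m n c : ℕ} {h : c + m ≤ n} :
    ((univ : Finset (Fin m)).map (sh m n c h)).card = m := by
  rw [Finset.card_map, Finset.card_univ, Fintype.card_fin]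

theorem card_nb_hub {a p : ℕ} (ha : 1 ≤ a) (hp : 1 ≤ p) :
    (nb (broom (a + p) a) ⟨a, by omega⟩).card = p := by
  classical
  have : nb (broom (a + p) a) ⟨a, by omega⟩ = insert ⟨a - 1, by omega⟩
      ((univ : Finset (Fin (p - 1))).map (sh (p - 1) (a + p) (a + 1) (by omega))) := by
    ext u
    rw [mem_nb, broom_adj, Finset.mem_insert, mem_sh, Fin.ext_iff]
    have := u.2
    simp only
    omega
  rw [this, Finset.card_insert_of_notMem, card_sh]
  · omega
  · rw [mem_sh]
    simp only
    omega

theorem numLeaves_broom {a p : ℕ} (ha : 1 ≤ a) (hp : 2 ≤ p) :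
    numLeaves (broom (a + p) a) = p := by
  classical
  rw [numLeaves_eq]
  have : leafSet (broom (a + p) a) = insert ⟨0, by omega⟩
      ((univ : Finset (Fin (p - 1))).map (sh (p - 1) (a + p) (a + 1) (by omega))) := by
    ext v
    rw [mem_leafSet, Finset.mem_insert, mem_sh, Fin.ext_iff]
    obtain ⟨v, hv⟩ := v
    simp only
    rcases Nat.eq_zero_or_pos v with h0 | h0
    · subst h0
      rw [nb_zero ha (by omega)]
      simp
    · rcases lt_trichotomy v a with h | h | h
      · rw [nb_mid h0 h (by omega), Finset.card_pair (by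
          intro hh
          rw [Fin.mk.injEq] at hh
          omega)]
        omega
      · subst h
        rw [card_nb_hub ha (by omega)]
        omega
      · rw [nb_brush h hv, Finset.card_singleton]
        omega
  rw [this, Finset.card_insert_of_notMem, card_sh]
  · omega
  · rw [mem_sh]
    simp only
    omega

theorem card_twoSet_broom {a p : ℕ} (ha : 1 ≤ a) (hp : 2 ≤ p) :
    a - 1 ≤ (twoSet (broom (a + p) a)).card := by
  classical
  have hsub : ((univ : Finset (Fin (a - 1))).map (sh (a - 1) (a + p) 1 (by omega))) ⊆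
        twoSet (broom (a + p) a) := by
    intro v hv
    rw [mem_sh] at hv
    obtain ⟨v, hv'⟩ := v
    simp only at hv
    rw [mem_twoSet, nb_mid (by omega) (by omega) (by omega), Finset.card_pair]
    intro hh
    rw [Fin.mk.injEq] at hh
    omega
  have := Finset.card_le_card hsub
  rwa [card_sh] at this

theorem card_twoSet_broom_two {a : ℕ} (ha : 1 ≤ a) :
    a ≤ (twoSet (broom (a + 2) a)).card := by
  classical
  have hsub : ((univ : Finset (Fin a)).map (sh a (a + 2) 1 (by omega))) ⊆
        twoSet (broom (a + 2) a) := by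
    intro v hv
    rw [mem_sh] at hv
    obtain ⟨v, hv'⟩ := v
    simp only at hv
    rw [mem_twoSet]
    rcases Nat.lt_or_ge v a with h | h
    · rw [nb_mid (by omega) h (by omega), Finset.card_pair]
      intro hh
      rw [Fin.mk.injEq] at hh
      omega
    · have : v = a := by omega
      subst this
      rw [card_nb_hub ha (by omega)]
  have := Finset.card_le_card hsub
  rwa [card_sh] at this

/-- (A2), (A3): the upper bound for `n(p)` -/
theorem upper (p : ℕ) (hp : 2 ≤ p) (N : ℕ) (h : AllTreesUpTo p N) :
    N ≤ if p = 2 then 4 else 2 * p + 1 := by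
  by_contra hN
  rw [not_le] at hN
  split_ifs at hN with h2
  · subst h2
    have := h 5 (by omega) (by omega) (broom (3 + 2) 3) (broom_isTree _ _ (by omega))
      (numLeaves_broom (by omega) (by omega))
    obtain ⟨w, hw⟩ := exists_irr_of_strength (by omega) this
    have h3 := card_twoSet_le hw (numLeaves_broom (by omega) (by omega))
    have h4 := card_twoSet_broom_two (a := 3) (by omega)
    omega
  · have := h ((p + 2) + p) (by omega) (by omega) (broom ((p + 2) + p) (p + 2))
      (broom_isTree _ _ (by omega)) (numLeaves_broom (by omega) (by omega))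
    obtain ⟨w, hw⟩ := exists_irr_of_strength (by omega) this
    have h3 := card_twoSet_le hw (numLeaves_broom (by omega) (by omega))
    have h4 := card_twoSet_broom (a := p + 2) (p := p) (by omega) (by omega)
    omega

/-! ### The case of two leaves -/

theorem closed_univ {V : Type*} {G : SimpleGraph V} (hG : G.Connected) {S : Set V} {a : V}
    (ha : a ∈ S) (hS : ∀ u ∈ S, ∀ v, G.Adj u v → v ∈ S) (v : V) : v ∈ S := by
  obtain ⟨q⟩ := hG.preconnected a v
  induction q with
  | nil => exact ha
  | cons hadj _ ih => exact ih (hS _ ha _ hadj)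

theorem wdeg_single {V : Type*} [Fintype V] {G : SimpleGraph V} {w : Sym2 V → ℕ} {v b : V}
    (h : nb G v = {b}) : wdeg G w v = w s(v, b) := by
  rw [wdeg_eq, h, Finset.sum_singleton]

theorem wdeg_pair {V : Type*} [Fintype V] [DecidableEq V] {G : SimpleGraph V} {w : Sym2 V → ℕ}
    {v b c : V} (hbc : b ≠ c) (h : nb G v = {b, c}) : wdeg G w v = w s(v, b) + w s(v, c) := by
  rw [wdeg_eq, h, Finset.sum_pair hbc]

set_option linter.unusedSimpArgs false in
theorem irr_three {V : Type*} [Fintype V] [DecidableEq V] {G : SimpleGraph V} {a b d : V}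
    (hab : a ≠ b) (had : a ≠ d) (hbd : b ≠ d) (huniv : ∀ v, v = a ∨ v = b ∨ v = d)
    (ha : nb G a = {b}) (hd : nb G d = {b}) : ∃ w, IrrWeighting G 2 w := by
  have hadj : ∀ {u v}, G.Adj u v ↔ v ∈ nb G u := fun {u v} => mem_nb.symm
  have hb : nb G b = {a, d} := by
    ext u
    rw [mem_nb, Finset.mem_insert, Finset.mem_singleton]
    constructor
    · intro h
      rcases huniv u with rfl | rfl | rfl
      · exact Or.inl rfl
      · exact (G.loopless.irrefl _ h).elim
      · exact Or.inr rfl
    · rintro (rfl | rfl)
      · apply SimpleGraph.Adj.symm; rw [hadj, ha]; simp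
      · apply SimpleGraph.Adj.symm; rw [hadj, hd]; simp
  refine ⟨fun e => if a ∈ e then 1 else 2, ?_, ?_⟩
  · intro e _
    dsimp only
    split_ifs <;> omega
  · have w1 := wdeg_single (w := fun e => if a ∈ e then 1 else 2) ha
    have w2 := wdeg_single (w := fun e => if a ∈ e then 1 else 2) hd
    have w3 := wdeg_pair (w := fun e => if a ∈ e then 1 else 2) had hb
    simp [Sym2.mem_iff, hab, had, hbd, Ne.symm hab, Ne.symm had, Ne.symm hbd] at w1 w2 w3
    intro u v huv
    rcases huniv u with rfl | rfl | rfl <;> rcases huniv v with rfl | rfl | rfl <;>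
      first | rfl | (exfalso; simp only [w1, w2, w3] at huv; omega)

set_option linter.unusedSimpArgs false in
theorem irr_four {V : Type*} [Fintype V] [DecidableEq V] {G : SimpleGraph V} {a b c d : V}
    (hab : a ≠ b) (hac : a ≠ c) (had : a ≠ d) (hbc : b ≠ c) (hbd : b ≠ d) (hcd : c ≠ d)
    (huniv : ∀ v, v = a ∨ v = b ∨ v = c ∨ v = d)
    (ha : nb G a = {b}) (hb : nb G b = {a, c}) (hc : nb G c = {b, d}) (hd : nb G d = {c}) :
    ∃ w, IrrWeighting G 2 w := by
  refine ⟨fun e => if a ∈ e then 1 else 2, ?_, ?_⟩
  · intro e _
    dsimp only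
    split_ifs <;> omega
  · have w1 := wdeg_single (w := fun e => if a ∈ e then 1 else 2) ha
    have w2 := wdeg_pair (w := fun e => if a ∈ e then 1 else 2) hac hb
    have w3 := wdeg_pair (w := fun e => if a ∈ e then 1 else 2) hbd hc
    have w4 := wdeg_single (w := fun e => if a ∈ e then 1 else 2) hd
    simp [Sym2.mem_iff, hab, had, hbd, hac, hbc, hcd, Ne.symm hab, Ne.symm had, Ne.symm hbd,
      Ne.symm hac, Ne.symm hbc, Ne.symm hcd] at w1 w2 w3 w4
    intro u v huv
    rcases huniv u with rfl | rfl | rfl | rfl <;> rcases huniv v with rfl | rfl | rfl | rfl <;>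
      first | rfl | (exfalso; simp only [w1, w2, w3, w4] at huv; omega)

theorem exists_irr_two {n : ℕ} (hn : 3 ≤ n) (hn4 : n ≤ 4) (T : SimpleGraph (Fin n))
    (hT : T.Connected) (hl : numLeaves T = 2) : ∃ w, IrrWeighting T 2 w := by
  classical
  rw [numLeaves_eq] at hl
  obtain ⟨a, d, had, hLS⟩ := Finset.card_eq_two.1 hl
  have haL : (nb T a).card = 1 := mem_leafSet.1 (by rw [hLS]; simp)
  have hdL : (nb T d).card = 1 := mem_leafSet.1 (by rw [hLS]; simp)
  have honly : ∀ v, (nb T v).card = 1 → v = a ∨ v = d := by
    intro v hv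
    have : v ∈ leafSet T := mem_leafSet.2 hv
    rw [hLS] at this
    simpa using this
  obtain ⟨b, hb⟩ := Finset.card_eq_one.1 haL
  obtain ⟨c, hc⟩ := Finset.card_eq_one.1 hdL
  have hAb : T.Adj a b := mem_nb.1 (by rw [hb]; simp)
  have hDc : T.Adj d c := mem_nb.1 (by rw [hc]; simp)
  have hab : a ≠ b := T.ne_of_adj hAb
  have hdc : d ≠ c := T.ne_of_adj hDc
  have nba : ∀ v, T.Adj a v → v = b := fun v hv => by
    have := mem_nb.2 hv; rw [hb] at this; simpa using this
  have nbd : ∀ v, T.Adj d v → v = c := fun v hv => by
    have := mem_nb.2 hv; rw [hc] at this; simpa using this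
  have hcardU : Fintype.card (Fin n) = n := Fintype.card_fin n
  have small : ∀ S : Finset (Fin n), a ∈ S → (∀ u ∈ S, ∀ v, T.Adj u v → v ∈ S) → S.card = n := by
    intro S haS hS
    have : S = univ := by
      ext v
      simp only [mem_univ, iff_true]
      have := closed_univ hT (S := (S : Set (Fin n))) (a := a) (by simpa using haS)
        (fun u hu v huv => by simpa using hS u (by simpa using hu) v huv) v
      simpa using this
    rw [this, Finset.card_univ, hcardU]
  have hbd : b ≠ d := by
    rintro rfl
    have hca : c = a := (nbd a (hAb.symm)).symm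
    subst hca
    have := small {c, b} (by simp) (by
      intro u hu v huv
      rw [Finset.mem_insert, Finset.mem_singleton] at hu ⊢
      rcases hu with rfl | rfl
      · right; exact nba v huv
      · left; exact nbd v huv)
    have h2 : ({c, b} : Finset (Fin n)).card ≤ 2 := Finset.card_le_two
    omega
  have hac : a ≠ c := by
    rintro rfl
    exact hbd (nba d (hDc.symm)).symm
  by_cases hbc : b = c
  · subst hbc
    -- then n = 3
    have huniv : ∀ v, v = a ∨ v = b ∨ v = d := by
      intro e
      by_contra he
      push Not at he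
      have hsub : nb T e ⊆ {b} := by
        intro v hv
        rw [mem_nb] at hv
        rw [Finset.mem_singleton]
        by_contra hvb
        have hva : v ≠ a := by
          rintro rfl
          exact he.2.1 (nba e (hv.symm))
        have hvd : v ≠ d := by
          rintro rfl
          exact he.2.1 (nbd e (hv.symm))
        have hve : v ≠ e := (T.ne_of_adj hv).symm
        have h5 : ({a, b, d, e, v} : Finset (Fin n)).card = 5 := by
          rw [Finset.card_insert_of_notMem, Finset.card_insert_of_notMem,
            Finset.card_insert_of_notMem, Finset.card_pair]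
          · exact hve.symm
          · simp only [Finset.mem_insert, Finset.mem_singleton, not_or]
            exact ⟨fun h => he.2.2 h.symm, fun h => hvd h.symm⟩
          · simp only [Finset.mem_insert, Finset.mem_singleton, not_or]
            exact ⟨hbd, fun h => he.2.1 h.symm, fun h => hvb h.symm⟩
          · simp only [Finset.mem_insert, Finset.mem_singleton, not_or]
            exact ⟨hab, had, fun h => he.1 h.symm, fun h => hva h.symm⟩
        have := Finset.card_le_univ ({a, b, d, e, v} : Finset (Fin n))
        rw [h5, hcardU] at this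
        omega
      have hne : (nb T e).Nonempty := by
        by_contra hemp
        rw [Finset.not_nonempty_iff_eq_empty] at hemp
        have := closed_univ hT (S := {e}) (a := e) (by simp) (by
          intro u hu v huv
          rw [Set.mem_singleton_iff] at hu
          subst hu
          have := mem_nb.2 huv
          rw [hemp] at this
          simp at this) a
        rw [Set.mem_singleton_iff] at this
        exact he.1 this.symm
      have h1 : (nb T e).card = 1 := by
        have := Finset.card_le_card hsub
        rw [Finset.card_singleton] at this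
        have := hne.card_pos
        omega
      rcases honly e h1 with h | h
      · exact he.1 h
      · exact he.2.2 h
    exact irr_three hab had hbd huniv hb hc
  · have huniv : ∀ v, v = a ∨ v = b ∨ v = c ∨ v = d := by
      intro e
      by_contra he
      push Not at he
      have h5 : ({a, b, c, d, e} : Finset (Fin n)).card = 5 := by
        rw [Finset.card_insert_of_notMem, Finset.card_insert_of_notMem,
          Finset.card_insert_of_notMem, Finset.card_pair]
        · exact fun h => he.2.2.2 h.symm
        · simp only [Finset.mem_insert, Finset.mem_singleton, not_or]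
          exact ⟨fun h => hdc h.symm, fun h => he.2.2.1 h.symm⟩
        · simp only [Finset.mem_insert, Finset.mem_singleton, not_or]
          exact ⟨hbc, hbd, fun h => he.2.1 h.symm⟩
        · simp only [Finset.mem_insert, Finset.mem_singleton, not_or]
          exact ⟨hab, hac, had, fun h => he.1 h.symm⟩
      have := Finset.card_le_univ ({a, b, c, d, e} : Finset (Fin n))
      rw [h5, hcardU] at this
      omega
    have hBC : T.Adj b c := by
      by_contra hno
      have := small {a, b} (by simp) (by
        intro u hu v huv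
        rw [Finset.mem_insert, Finset.mem_singleton] at hu ⊢
        rcases hu with rfl | rfl
        · right; exact nba v huv
        · rcases huniv v with rfl | rfl | rfl | rfl
          · left; rfl
          · exact (T.loopless.irrefl _ huv).elim
          · exact (hno huv).elim
          · exact (hbc (nbd _ (huv.symm))).elim)
      have h2 : ({a, b} : Finset (Fin n)).card ≤ 2 := Finset.card_le_two
      omega
    have hb2 : nb T b = {a, c} := by
      ext v
      rw [mem_nb, Finset.mem_insert, Finset.mem_singleton]
      constructor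
      · intro huv
        rcases huniv v with rfl | rfl | rfl | rfl
        · left; rfl
        · exact (T.loopless.irrefl _ huv).elim
        · right; rfl
        · exact (hbc (nbd _ (huv.symm))).elim
      · rintro (rfl | rfl)
        · exact hAb.symm
        · exact hBC
    have hc2 : nb T c = {b, d} := by
      ext v
      rw [mem_nb, Finset.mem_insert, Finset.mem_singleton]
      constructor
      · intro huv
        rcases huniv v with rfl | rfl | rfl | rfl
        · exact (hbc (nba _ (huv.symm)).symm).elim
        · left; rfl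
        · exact (T.loopless.irrefl _ huv).elim
        · right; rfl
      · rintro (rfl | rfl)
        · exact hBC.symm
        · exact hDc.symm
    exact irr_four hab hac had hbc hbd (Ne.symm hdc) huniv hb hb2 hc2 hc

/-- (A3) -/
theorem lower_two : AllTreesUpTo 2 4 := by
  intro n hn hn3 T hT hl
  obtain ⟨w, hw⟩ := exists_irr_two hn3 hn T hT.1 hl
  exact strength_eq_of_irr hw hl

/-- It remains to give every tree with `p ≥ 3` leaves and order at most `2p+1` an irregular
weighting with weights at most `p`. -/
theorem target_of (h : ∀ p, 3 ≤ p → ∀ n, n ≤ 2 * p + 1 → ∀ T : SimpleGraph (Fin n), T.IsTree →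
    numLeaves T = p → ∃ w, IrrWeighting T p w) : Target := by
  intro p hp
  constructor
  · split_ifs with h2
    · subst h2
      exact lower_two
    · intro n hn _ T hT hl
      obtain ⟨w, hw⟩ := h p (by omega) n hn T hT hl
      exact strength_eq_of_irr hw hl
  · intro N hN
    exact upper p hp N hN

end Irr37
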