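import Pool.Agent.Irr37.Rep
import Pool.Agent.Irr37.Upper

/-!
The bridge between trees (`SimpleGraph`) and rooted forests (`RF`), for MP_033e98_co.
-/

open Finset

namespace Irr37

/-- a rooted tree structure on the vertex set: root, parent function, depth -/
structure Rooted (V : Type*) where
  r : V
  par : V → V
  d : V → ℕ
  hr : par r = r
  hd : ∀ v, v ≠ r → d (par v) + 1 = d v

namespace Rooted

variable {V : Type*} [Fintype V] (R : Rooted V)

open Classical in
/-- children -/
noncomputable def ch (v : V) : Finset V := univ.filter (fun u => u ≠ R.r ∧ R.par u = v)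

theorem mem_ch {v u : V} : u ∈ R.ch v ↔ u ≠ R.r ∧ R.par u = v := by
  classical
  simp [ch]

open Classical in
/-- children which are leaves -/
noncomputable def lch (v : V) : Finset V := (R.ch v).filter (fun u => R.ch u = ∅)

open Classical in
/-- children which are internal vertices -/
noncomputable def ich (v : V) : Finset V := (R.ch v).filter (fun u => R.ch u ≠ ∅)

theorem mem_lch {v u : V} : u ∈ R.lch v ↔ u ∈ R.ch v ∧ R.ch u = ∅ := by
  classical
  simp [lch]

theorem mem_ich {v u : V} : u ∈ R.ich v ↔ u ∈ R.ch v ∧ R.ch u ≠ ∅ := by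
  classical
  simp [ich]

open Classical in
/-- vertices below `S` -/
noncomputable def B (S : Finset V) : Finset V := univ.filter (fun w => ∃ k, R.par^[k] w ∈ S)

theorem mem_B {S : Finset V} {w : V} : w ∈ R.B S ↔ ∃ k, R.par^[k] w ∈ S := by
  classical
  simp [B]

open Classical in
/-- internal vertices below `S` -/
noncomputable def I (S : Finset V) : Finset V := (R.B S).filter (fun u => R.ch u ≠ ∅)

open Classical in
/-- leaves below `S` -/
noncomputable def L (S : Finset V) : Finset V := (R.B S).filter (fun u => R.ch u = ∅)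

theorem mem_I {S : Finset V} {w : V} : w ∈ R.I S ↔ w ∈ R.B S ∧ R.ch w ≠ ∅ := by
  classical
  simp [I]

theorem mem_L {S : Finset V} {w : V} : w ∈ R.L S ↔ w ∈ R.B S ∧ R.ch w = ∅ := by
  classical
  simp [L]

omit [Fintype V] in
theorem iter_r (k : ℕ) : R.par^[k] R.r = R.r := by
  induction k with
  | zero => rfl
  | succ k ih => rw [Function.iterate_succ_apply, R.hr, ih]

omit [Fintype V] in
theorem depth_iter (k : ℕ) (w : V) (h : R.par^[k] w ≠ R.r) :
    R.d (R.par^[k] w) + k = R.d w := by
  induction k generalizing w with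
  | zero => rfl
  | succ k ih =>
    have hw : w ≠ R.r := by
      rintro rfl
      exact h (R.iter_r _)
    rw [Function.iterate_succ_apply] at h ⊢
    have := ih (R.par w) h
    have := R.hd w hw
    omega

theorem subset_B (S : Finset V) {w : V} (h : w ∈ S) : w ∈ R.B S := by
  rw [mem_B]
  exact ⟨0, h⟩

theorem B_ne_root {S : Finset V} {v w : V} (hS : S ⊆ R.ch v) (h : w ∈ R.B S) : w ≠ R.r := by
  rw [mem_B] at h
  obtain ⟨k, hk⟩ := h
  rintro rfl
  rw [R.iter_r] at hk
  exact (R.mem_ch.1 (hS hk)).1 rfl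

theorem child_mem_B {S : Finset V} {w c : V} (h : w ∈ R.B S) (hc : c ∈ R.ch w) : c ∈ R.B S := by
  rw [mem_B] at h ⊢
  obtain ⟨k, hk⟩ := h
  refine ⟨k + 1, ?_⟩
  rw [Function.iterate_succ_apply, (R.mem_ch.1 hc).2]
  exact hk

theorem B_depth {S : Finset V} {v w : V} (hS : S ⊆ R.ch v) (h : w ∈ R.B S) :
    R.d v + 1 ≤ R.d w := by
  rw [mem_B] at h
  obtain ⟨k, hk⟩ := h
  have h1 := R.mem_ch.1 (hS hk)
  have h2 := R.depth_iter k w h1.1
  have h3 := R.hd _ h1.1
  rw [h1.2] at h3
  omega

theorem disj_aux {v u w : V} {S : Finset V} (hS : S ⊆ R.ch v) (hu : u ∈ R.ch v) (huS : u ∉ S)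
    (h1 : w ∈ R.B {u}) (h2 : w ∈ R.B S) : False := by
  rw [mem_B] at h1 h2
  obtain ⟨k, hk⟩ := h1
  obtain ⟨j, hj⟩ := h2
  rw [Finset.mem_singleton] at hk
  have a1 := R.mem_ch.1 hu
  have a2 := R.mem_ch.1 (hS hj)
  have b1 := R.depth_iter k w (by rw [hk]; exact a1.1)
  have b2 := R.depth_iter j w a2.1
  have c1 := R.hd _ a1.1
  have c2 := R.hd _ a2.1
  rw [a1.2] at c1
  rw [a2.2] at c2
  rw [hk] at b1
  have : k = j := by omega
  subst this
  rw [hk] at hj
  exact huS hj

theorem B_lch {u w : V} : w ∈ R.B (R.lch u) ↔ w ∈ R.lch u := by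
  constructor
  · intro h
    rw [mem_B] at h
    obtain ⟨k, hk⟩ := h
    rcases k with _ | k
    · exact hk
    · exfalso
      rw [Function.iterate_succ_apply'] at hk
      have h1 := R.mem_lch.1 hk
      have h2 : R.par^[k] w ∈ R.ch (R.par (R.par^[k] w)) := by
        rw [mem_ch]
        refine ⟨?_, rfl⟩
        intro hcon
        rw [hcon, R.hr] at h1
        exact (R.mem_ch.1 h1.1).1 rfl
      rw [h1.2] at h2
      exact absurd h2 (Finset.notMem_empty _)
  · exact R.subset_B _

theorem B_single {u w : V} (hu : u ≠ R.r) :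
    w ∈ R.B {u} ↔ w = u ∨ w ∈ R.lch u ∨ w ∈ R.B (R.ich u) := by
  constructor
  · intro h
    rw [mem_B] at h
    obtain ⟨k, hk⟩ := h
    rw [Finset.mem_singleton] at hk
    rcases k with _ | k
    · exact Or.inl hk
    · right
      rw [Function.iterate_succ_apply'] at hk
      have hc : R.par^[k] w ∈ R.ch u := by
        rw [mem_ch]
        refine ⟨?_, hk⟩
        intro hcon
        rw [hcon, R.hr] at hk
        exact hu hk.symm
      by_cases hl : R.ch (R.par^[k] w) = ∅
      · left
        rw [← B_lch, mem_B]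
        exact ⟨k, R.mem_lch.2 ⟨hc, hl⟩⟩
      · right
        rw [mem_B]
        exact ⟨k, R.mem_ich.2 ⟨hc, hl⟩⟩
  · rintro (rfl | h | h)
    · exact R.subset_B _ (Finset.mem_singleton_self _)
    · rw [mem_B]
      refine ⟨1, ?_⟩
      rw [Finset.mem_singleton]
      exact (R.mem_ch.1 (R.mem_lch.1 h).1).2
    · rw [mem_B] at h ⊢
      obtain ⟨k, hk⟩ := h
      refine ⟨k + 1, ?_⟩
      rw [Function.iterate_succ_apply', Finset.mem_singleton]
      exact (R.mem_ch.1 (R.mem_ich.1 hk).1).2

theorem B_insert [DecidableEq V] {u w : V} {S : Finset V} :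
    w ∈ R.B (insert u S) ↔ w ∈ R.B {u} ∨ w ∈ R.B S := by
  rw [mem_B, mem_B, mem_B]
  constructor
  · rintro ⟨k, hk⟩
    rw [Finset.mem_insert] at hk
    rcases hk with hk | hk
    · exact Or.inl ⟨k, Finset.mem_singleton.2 hk⟩
    · exact Or.inr ⟨k, hk⟩
  · rintro (⟨k, hk⟩ | ⟨k, hk⟩)
    · exact ⟨k, Finset.mem_insert.2 (Or.inl (Finset.mem_singleton.1 hk))⟩
    · exact ⟨k, Finset.mem_insert.2 (Or.inr hk)⟩

theorem lch_subset (u : V) : R.lch u ⊆ R.ch u := fun _ h => (R.mem_lch.1 h).1

theorem ich_subset (u : V) : R.ich u ⊆ R.ch u := fun _ h => (R.mem_ich.1 h).1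

theorem lch_disj_ich {u w : V} (h : w ∈ R.lch u) (h' : w ∈ R.B (R.ich u)) : False := by
  rw [mem_B] at h'
  obtain ⟨j, hj⟩ := h'
  have a0 := R.mem_lch.1 h
  have a1 := R.mem_ch.1 a0.1
  have a3 := R.mem_ich.1 hj
  have a2 := R.mem_ch.1 a3.1
  have b2 := R.depth_iter j w a2.1
  have c1 := R.hd _ a1.1
  have c2 := R.hd _ a2.1
  rw [a1.2] at c1
  rw [a2.2] at c2
  have : j = 0 := by omega
  subst this
  exact a3.2 a0.2

theorem lch_disj (u : V) : Disjoint (R.lch u) (R.ich u) := by
  rw [Finset.disjoint_left]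
  intro w hw hw'
  exact (R.mem_ich.1 hw').2 (R.mem_lch.1 hw).2

theorem ch_union [DecidableEq V] (u : V) : R.ch u = R.lch u ∪ R.ich u := by
  ext w
  rw [Finset.mem_union, mem_lch, mem_ich]
  tauto

theorem ch_sum (u : V) (y : V → ℕ) :
    ∑ c ∈ R.ch u, y c = ∑ c ∈ R.lch u, y c + ∑ c ∈ R.ich u, y c := by
  classical
  rw [R.ch_union u, Finset.sum_union (R.lch_disj u)]

end Rooted

theorem exists_labels {V : Type*} (s : Finset V) (A : Multiset ℕ) (h : A.card = s.card) :
    ∃ y : V → ℕ, s.val.map y = A := by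
  classical
  induction s using Finset.induction_on generalizing A with
  | empty =>
    refine ⟨fun _ => 0, ?_⟩
    rw [Finset.card_empty, Multiset.card_eq_zero] at h
    rw [h]; rfl
  | insert a s ha ih =>
    rw [Finset.card_insert_of_notMem ha] at h
    obtain ⟨b, A', rfl⟩ : ∃ b A', A = b ::ₘ A' := by
      rcases Multiset.exists_cons_of_mem (Multiset.card_pos_iff_exists_mem.1 (by omega : 0 < A.card)).choose_spec with ⟨t, ht⟩
      exact ⟨_, t, ht⟩
    rw [Multiset.card_cons] at h
    obtain ⟨y, hy⟩ := ih A' (by omega)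
    refine ⟨Function.update y a b, ?_⟩
    rw [Finset.insert_val_of_notMem ha, Multiset.map_cons, Function.update_self]
    congr 1
    rw [← hy]
    apply Multiset.map_congr rfl
    intro x hx
    rw [Function.update_of_ne]
    rintro rfl
    exact ha hx

theorem map_union_val {V : Type*} [DecidableEq V] {s t : Finset V} (h : Disjoint s t)
    (y : V → ℕ) : (s ∪ t).val.map y = s.val.map y + t.val.map y := by
  rw [← Finset.disjUnion_eq_union _ _ h, Finset.disjUnion_val, Multiset.map_add]

namespace Rooted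

variable {V : Type*} [Fintype V] (R : Rooted V)

/-- the properties of the shape of the forest below `S` -/
def Shape (p : ℕ) (S : Finset V) (F : RF) : Prop :=
  F.width = S.card ∧ F.Valid ∧ F.size = (R.I S).card ∧ F.leaves = (R.L S).card ∧
    ∀ (f : LF) (x : ℕ) (W : Multiset ℕ), f.shape = F → Sol p f x W → ∃ y : V → ℕ,
      ∑ u ∈ S, y u = x ∧ (R.L S).val.map y = f.labels ∧
      (R.I S).val.map (fun u => y u + ∑ c ∈ R.ch u, y c) = W ∧
      ∀ u ∈ R.I S, 1 ≤ y u ∧ y u ≤ p

theorem B_empty : R.B ∅ = ∅ := by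
  ext w
  rw [mem_B]
  simp

theorem shape_nil (p : ℕ) : R.Shape p ∅ RF.nil := by
  have hI : R.I ∅ = ∅ := by
    ext w; rw [mem_I, B_empty]; simp
  have hL : R.L ∅ = ∅ := by
    ext w; rw [mem_L, B_empty]; simp
  refine ⟨rfl, trivial, by rw [hI]; rfl, by rw [hL]; rfl, ?_⟩
  intro f x W hf hs
  cases f with
  | cons A ch sib => simp [LF.shape] at hf
  | nil =>
    cases hs
    refine ⟨fun _ => 0, by simp, by rw [hL]; simp [LF.labels], by rw [hI]; simp, ?_⟩
    intro u hu
    rw [hI] at hu
    exact absurd hu (Finset.notMem_empty _)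

theorem shape_cons (p : ℕ) {v u : V} {S : Finset V} [DecidableEq V] (hS : S ⊆ R.ich v)
    (hu : u ∈ R.ich v) (huS : u ∉ S) {F1 F2 : RF} (h1 : R.Shape p (R.ich u) F1)
    (h2 : R.Shape p S F2) :
    R.Shape p (insert u S) (RF.cons (R.lch u).card F1 F2) := by
  have hSv : S ⊆ R.ch v := hS.trans (R.ich_subset v)
  have huv : u ∈ R.ch v := R.ich_subset v hu
  have hur : u ≠ R.r := (R.mem_ch.1 huv).1
  have huch : R.ch u ≠ ∅ := (R.mem_ich.1 hu).2
  -- disjointness
  have hB1 : ∀ w ∈ R.B (R.ich u), w ≠ u := by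
    intro w hw
    have := R.B_depth (R.ich_subset u) hw
    rintro rfl
    omega
  have hB1' : ∀ w ∈ R.B (R.ich u), w ∉ R.lch u := fun w hw hw' => R.lch_disj_ich hw' hw
  have hB1'' : ∀ w ∈ R.B (R.ich u), w ∉ R.B S := fun w hw hw' =>
    R.disj_aux hSv huv huS ((R.B_single hur).2 (Or.inr (Or.inr hw))) hw'
  have hB2 : ∀ w ∈ R.B S, w ≠ u := fun w hw hw' =>
    R.disj_aux hSv huv huS ((R.B_single hur).2 (Or.inl hw')) hw
  have hB2' : ∀ w ∈ R.B S, w ∉ R.lch u := fun w hw hw' =>
    R.disj_aux hSv huv huS ((R.B_single hur).2 (Or.inr (Or.inl hw'))) hw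
  have hB2'' : ∀ w ∈ R.B S, w ∉ R.B (R.ich u) := fun w hw hw' => hB1'' w hw' hw
  have hl : ∀ w ∈ R.lch u, w ≠ u := by
    rintro w hw rfl
    exact huch (R.mem_lch.1 hw).2
  have hI : R.I (insert u S) = insert u (R.I (R.ich u) ∪ R.I S) := by
    ext w
    rw [mem_I, B_insert, B_single _ hur, Finset.mem_insert, Finset.mem_union, mem_I, mem_I]
    constructor
    · rintro ⟨(rfl | h | h) | h, h'⟩
      · exact Or.inl rfl
      · exact absurd (R.mem_lch.1 h).2 h'
      · exact Or.inr (Or.inl ⟨h, h'⟩)
      · exact Or.inr (Or.inr ⟨h, h'⟩)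
    · rintro (rfl | ⟨h, h'⟩ | ⟨h, h'⟩)
      · exact ⟨Or.inl (Or.inl rfl), huch⟩
      · exact ⟨Or.inl (Or.inr (Or.inr h)), h'⟩
      · exact ⟨Or.inr h, h'⟩
  have hL : R.L (insert u S) = R.lch u ∪ (R.L (R.ich u) ∪ R.L S) := by
    ext w
    rw [mem_L, B_insert, B_single _ hur, Finset.mem_union, Finset.mem_union, mem_L, mem_L]
    constructor
    · rintro ⟨(rfl | h | h) | h, h'⟩
      · exact absurd h' huch
      · exact Or.inl h
      · exact Or.inr (Or.inl ⟨h, h'⟩)
      · exact Or.inr (Or.inr ⟨h, h'⟩)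
    · rintro (h | ⟨h, h'⟩ | ⟨h, h'⟩)
      · exact ⟨Or.inl (Or.inr (Or.inl h)), (R.mem_lch.1 h).2⟩
      · exact ⟨Or.inl (Or.inr (Or.inr h)), h'⟩
      · exact ⟨Or.inr h, h'⟩
  have dI : Disjoint (R.I (R.ich u)) (R.I S) := by
    rw [Finset.disjoint_left]
    intro w hw hw'
    exact hB1'' w (R.mem_I.1 hw).1 (R.mem_I.1 hw').1
  have dL : Disjoint (R.L (R.ich u)) (R.L S) := by
    rw [Finset.disjoint_left]
    intro w hw hw'
    exact hB1'' w (R.mem_L.1 hw).1 (R.mem_L.1 hw').1
  have dL' : Disjoint (R.lch u) (R.L (R.ich u) ∪ R.L S) := by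
    rw [Finset.disjoint_left]
    intro w hw hw'
    rw [Finset.mem_union] at hw'
    rcases hw' with hw' | hw'
    · exact hB1' w (R.mem_L.1 hw').1 hw
    · exact hB2' w (R.mem_L.1 hw').1 hw
  have nI : u ∉ R.I (R.ich u) ∪ R.I S := by
    intro hw
    rw [Finset.mem_union] at hw
    rcases hw with hw | hw
    · exact hB1 u (R.mem_I.1 hw).1 rfl
    · exact hB2 u (R.mem_I.1 hw).1 rfl
  obtain ⟨w1, v1, s1, l1, e1⟩ := h1
  obtain ⟨w2, v2, s2, l2, e2⟩ := h2
  refine ⟨?_, ?_, ?_, ?_, ?_⟩
  · rw [RF.width, w2, Finset.card_insert_of_notMem huS, add_comm]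
  · refine ⟨?_, v1, v2⟩
    intro hF
    rw [hF] at w1
    have h0 : (R.ich u).card = 0 := w1.symm
    rw [Finset.card_eq_zero] at h0
    obtain ⟨c, hc⟩ := Finset.nonempty_iff_ne_empty.2 huch
    rw [Nat.one_le_iff_ne_zero, Finset.card_ne_zero]
    refine ⟨c, R.mem_lch.2 ⟨hc, ?_⟩⟩
    by_contra hcon
    have : c ∈ R.ich u := R.mem_ich.2 ⟨hc, hcon⟩
    rw [h0] at this
    exact absurd this (Finset.notMem_empty _)
  · rw [RF.size, hI, Finset.card_insert_of_notMem nI, Finset.card_union_of_disjoint dI, s1, s2]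
    omega
  · rw [RF.leaves, hL, Finset.card_union_of_disjoint dL', Finset.card_union_of_disjoint dL, l1, l2]
    omega
  · intro f x W hf hs
    cases f with
    | nil => simp [LF.shape] at hf
    | cons A chf sib =>
      rw [LF.shape, RF.cons.injEq] at hf
      obtain ⟨hA, hf1, hf2⟩ := hf
      cases hs with
      | @cons _ _ _ x1 x2 y0 W1 W2 g1 g2 g3 g4 =>
        obtain ⟨y1, a1, b1, c1, d1⟩ := e1 chf x1 W1 hf1 g3
        obtain ⟨y2, a2, b2, c2, d2⟩ := e2 sib x2 W2 hf2 g4
        obtain ⟨yA, hyA⟩ := exists_labels (R.lch u) A hA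
        set y : V → ℕ := fun w => if w = u then y0 else if w ∈ R.lch u then yA w else
          if w ∈ R.B (R.ich u) then y1 w else y2 w with hy
        have yu : y u = y0 := by simp [hy]
        have yl : ∀ w ∈ R.lch u, y w = yA w := by
          intro w hw
          simp only [hy]
          rw [if_neg (hl w hw), if_pos hw]
        have yi : ∀ w ∈ R.B (R.ich u), y w = y1 w := by
          intro w hw
          simp only [hy]
          rw [if_neg (hB1 w hw), if_neg (hB1' w hw), if_pos hw]
        have ys : ∀ w ∈ R.B S, y w = y2 w := by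
          intro w hw
          simp only [hy]
          rw [if_neg (hB2 w hw), if_neg (hB2' w hw), if_neg (hB2'' w hw)]
        refine ⟨y, ?_, ?_, ?_, ?_⟩
        · rw [Finset.sum_insert huS, yu, ← a2]
          congr 1
          exact Finset.sum_congr rfl (fun w hw => ys w (R.subset_B S hw))
        · rw [hL, map_union_val dL', map_union_val dL, LF.labels, ← hyA, ← b1, ← b2, add_assoc]
          congr 1
          · exact Multiset.map_congr rfl (fun w hw => yl w hw)
          · congr 1
            · exact Multiset.map_congr rfl (fun w hw => yi w (R.mem_L.1 hw).1)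
            · exact Multiset.map_congr rfl (fun w hw => ys w (R.mem_L.1 hw).1)
        · rw [hI, Finset.insert_val_of_notMem nI, Multiset.map_cons, map_union_val dI, ← c1, ← c2]
          congr 1
          · rw [yu, ch_sum, Finset.sum_congr rfl yl,
              Finset.sum_congr rfl (fun w hw => yi w (R.subset_B _ hw)), a1, ← hyA]
            have : ∑ c ∈ R.lch u, yA c = (Multiset.map yA (R.lch u).val).sum := rfl
            rw [this]
            omega
          · congr 1
            · apply Multiset.map_congr rfl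
              intro w hw
              have hw' := (R.mem_I.1 hw).1
              rw [yi w hw']
              congr 1
              exact Finset.sum_congr rfl (fun c hc => yi c (R.child_mem_B hw' hc))
            · apply Multiset.map_congr rfl
              intro w hw
              have hw' := (R.mem_I.1 hw).1
              rw [ys w hw']
              congr 1
              exact Finset.sum_congr rfl (fun c hc => ys c (R.child_mem_B hw' hc))
        · intro w hw
          rw [hI, Finset.mem_insert, Finset.mem_union] at hw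
          rcases hw with rfl | hw | hw
          · rw [yu]; exact ⟨g1, g2⟩
          · rw [yi w (R.mem_I.1 hw).1]; exact d1 w hw
          · rw [ys w (R.mem_I.1 hw).1]; exact d2 w hw

theorem exists_shape (p : ℕ) (v : V) : ∀ S ⊆ R.ich v, ∃ F, R.Shape p S F := by
  classical
  obtain ⟨M, hM⟩ : ∃ M, ∀ v, R.d v < M := by
    refine ⟨(Finset.univ.sup R.d) + 1, fun v => ?_⟩
    have := Finset.le_sup (f := R.d) (Finset.mem_univ v)
    omega
  obtain ⟨k, hk⟩ : ∃ k, M - R.d v = k := ⟨_, rfl⟩
  induction k using Nat.strong_induction_on generalizing v with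
  | _ k ih =>
    intro S
    induction S using Finset.induction_on with
    | empty => exact fun _ => ⟨RF.nil, R.shape_nil p⟩
    | insert u S huS ihS =>
      intro hS
      obtain ⟨F2, hF2⟩ := ihS ((Finset.subset_insert _ _).trans hS)
      have hu : u ∈ R.ich v := hS (Finset.mem_insert_self _ _)
      have hd : R.d v + 1 = R.d u := by
        have h1 := R.mem_ch.1 (R.ich_subset v hu)
        have := R.hd u h1.1
        rwa [h1.2] at this
      obtain ⟨F1, hF1⟩ := ih (M - R.d u) (by have := hM u; omega) u rfl (R.ich u)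
        (Finset.Subset.refl _)
      exact ⟨_, R.shape_cons p ((Finset.subset_insert _ _).trans hS) hu huS hF1 hF2⟩

theorem mem_B_root {w : V} (hroot : ∃ k, R.par^[k] w = R.r) (hw : w ≠ R.r) :
    w ∈ R.lch R.r ∨ w ∈ R.B (R.ich R.r) := by
  classical
  have hk := Nat.find_spec hroot
  have hmin := fun m (hm : m < Nat.find hroot) => Nat.find_min hroot hm
  set k := Nat.find hroot
  obtain ⟨j, hj⟩ : ∃ j, k = j + 1 := by
    rcases Nat.eq_zero_or_pos k with h0 | h0
    · rw [h0] at hk
      exact absurd hk hw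
    · exact ⟨k - 1, by omega⟩
  have hc : R.par^[j] w ∈ R.ch R.r := by
    rw [mem_ch]
    refine ⟨hmin j (by omega), ?_⟩
    rw [← Function.iterate_succ_apply' R.par j w, ← Nat.succ_eq_add_one] at *
    rw [hj] at hk
    exact hk
  by_cases hl : R.ch (R.par^[j] w) = ∅
  · left
    rw [← B_lch, mem_B]
    exact ⟨j, R.mem_lch.2 ⟨hc, hl⟩⟩
  · right
    rw [mem_B]
    exact ⟨j, R.mem_ich.2 ⟨hc, hl⟩⟩

open Classical in
/-- the weighted degree in terms of the labels `y v` of the edges from `v` to the parent of `v` -/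
noncomputable def wt (y : V → ℕ) (u : V) : ℕ := (if u = R.r then 0 else y u) + ∑ c ∈ R.ch u, y c

open Classical in
/-- the main statement about rooted trees: `h` is the hypothesis of the bridge. -/
theorem exists_y (p N : ℕ)
    (h : ∀ l ch, RValid l ch → l + ch.leaves = p → 1 + ch.size + p ≤ N → Solved p l ch)
    (hdeg : 2 ≤ (R.ch R.r).card) (hroot : ∀ w, ∃ k, R.par^[k] w = R.r)
    (hleaf : (univ.filter (fun v => R.ch v = ∅)).card = p)
    (hN : Fintype.card V ≤ N) :
    ∃ y : V → ℕ, (∀ u, u ≠ R.r → 1 ≤ y u ∧ y u ≤ p) ∧ Function.Injective (R.wt y) := by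
  have hrch : R.ch R.r ≠ ∅ := by
    intro h0
    rw [h0, Finset.card_empty] at hdeg
    omega
  have hLf : univ.filter (fun v => R.ch v = ∅) = R.lch R.r ∪ R.L (R.ich R.r) := by
    ext w
    rw [Finset.mem_filter, Finset.mem_union, mem_L]
    constructor
    · rintro ⟨-, hw⟩
      have hwr : w ≠ R.r := by rintro rfl; exact hrch hw
      rcases R.mem_B_root (hroot w) hwr with h1 | h1
      · exact Or.inl h1
      · exact Or.inr ⟨h1, hw⟩
    · rintro (hw | hw)
      · exact ⟨Finset.mem_univ _, (R.mem_lch.1 hw).2⟩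
      · exact ⟨Finset.mem_univ _, hw.2⟩
  have hIn : univ.filter (fun v => ¬ R.ch v = ∅) = insert R.r (R.I (R.ich R.r)) := by
    ext w
    rw [Finset.mem_filter, Finset.mem_insert, mem_I]
    constructor
    · rintro ⟨-, hw⟩
      by_cases hwr : w = R.r
      · exact Or.inl hwr
      rcases R.mem_B_root (hroot w) hwr with h1 | h1
      · exact absurd (R.mem_lch.1 h1).2 hw
      · exact Or.inr ⟨h1, hw⟩
    · rintro (rfl | hw)
      · exact ⟨Finset.mem_univ _, hrch⟩
      · exact ⟨Finset.mem_univ _, hw.2⟩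
  have nr : R.r ∉ R.I (R.ich R.r) := fun hw => R.B_ne_root (R.ich_subset _) (R.mem_I.1 hw).1 rfl
  have dL : Disjoint (R.lch R.r) (R.L (R.ich R.r)) := by
    rw [Finset.disjoint_left]
    intro w hw hw'
    exact R.lch_disj_ich hw (R.mem_L.1 hw').1
  obtain ⟨F, w1, v1, s1, l1, e1⟩ := R.exists_shape p R.r (R.ich R.r) (Finset.Subset.refl _)
  have hcard : (R.ch R.r).card = (R.lch R.r).card + (R.ich R.r).card := by
    rw [R.ch_union, Finset.card_union_of_disjoint (R.lch_disj _)]
  have hp : (R.lch R.r).card + F.leaves = p := by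
    rw [← hleaf, hLf, Finset.card_union_of_disjoint dL, l1]
  have htot : 1 + F.size + p = Fintype.card V := by
    have := Finset.card_filter_add_card_filter_not (s := (univ : Finset V))
      (fun v => R.ch v = ∅)
    rw [hleaf, hIn, Finset.card_insert_of_notMem nr, ← s1, Finset.card_univ] at this
    omega
  obtain ⟨A, f, x, W, hA, hf, hlab, hs, hnd, hgt⟩ :=
    h (R.lch R.r).card F ⟨v1, by rw [w1]; omega⟩ hp (by omega)
  obtain ⟨y1, a1, b1, c1, d1⟩ := e1 f x W hf hs
  obtain ⟨yA, hyA⟩ := exists_labels (R.lch R.r) A hA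
  set y : V → ℕ := fun w => if w ∈ R.lch R.r then yA w else y1 w with hy
  have yl : ∀ w ∈ R.lch R.r, y w = yA w := by
    intro w hw
    simp only [hy]
    rw [if_pos hw]
  have yi : ∀ w ∈ R.B (R.ich R.r), y w = y1 w := by
    intro w hw
    simp only [hy]
    rw [if_neg (fun hw' => R.lch_disj_ich hw' hw)]
  have hmapL : (univ.filter (fun v => R.ch v = ∅)).val.map y = (Finset.Icc 1 p).val := by
    rw [hLf, map_union_val dL, ← hlab, ← hyA, ← b1]
    congr 1
    · exact Multiset.map_congr rfl (fun w hw => yl w hw)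
    · exact Multiset.map_congr rfl (fun w hw => yi w (R.mem_L.1 hw).1)
  have hwtL : ∀ w, R.ch w = ∅ → R.wt y w = y w := by
    intro w hw
    have hwr : w ≠ R.r := by rintro rfl; exact hrch hw
    rw [wt, if_neg hwr, hw, Finset.sum_empty]
    rfl
  have hmapL' : (univ.filter (fun v => R.ch v = ∅)).val.map (R.wt y) = (Finset.Icc 1 p).val := by
    rw [← hmapL]
    apply Multiset.map_congr rfl
    intro w hw
    exact hwtL w (by simpa using hw)
  have hmapI : (univ.filter (fun v => ¬ R.ch v = ∅)).val.map (R.wt y) = (A.sum + x) ::ₘ W := by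
    rw [hIn, Finset.insert_val_of_notMem nr, Multiset.map_cons, ← c1]
    congr 1
    · rw [wt, if_pos rfl, ch_sum, Finset.sum_congr rfl yl,
        Finset.sum_congr rfl (fun w hw => yi w (R.subset_B _ hw)), a1, ← hyA]
      have : ∑ c ∈ R.lch R.r, yA c = (Multiset.map yA (R.lch R.r).val).sum := rfl
      rw [this]
      omega
    · apply Multiset.map_congr rfl
      intro w hw
      have hw' := (R.mem_I.1 hw).1
      rw [wt, if_neg (R.B_ne_root (R.ich_subset _) hw'), yi w hw']
      congr 1
      exact Finset.sum_congr rfl (fun c hc => yi c (R.child_mem_B hw' hc))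
  have hleafy : ∀ w, R.ch w = ∅ → 1 ≤ y w ∧ y w ≤ p := by
    intro w hw
    have : y w ∈ (univ.filter (fun v => R.ch v = ∅)).val.map y :=
      Multiset.mem_map_of_mem _ (by simpa using hw)
    rw [hmapL] at this
    simpa using this
  have hinty : ∀ w, R.ch w ≠ ∅ → w ≠ R.r → 1 ≤ y w ∧ y w ≤ p := by
    intro w hw hwr
    have : w ∈ univ.filter (fun v => ¬ R.ch v = ∅) := by simpa using hw
    rw [hIn, Finset.mem_insert] at this
    rcases this with h0 | h0
    · exact absurd h0 hwr
    · rw [yi w (R.mem_I.1 h0).1]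
      exact d1 w h0
  have hintw : ∀ w, R.ch w ≠ ∅ → p < R.wt y w := by
    intro w hw
    have : R.wt y w ∈ (univ.filter (fun v => ¬ R.ch v = ∅)).val.map (R.wt y) :=
      Multiset.mem_map_of_mem _ (by simpa using hw)
    rw [hmapI] at this
    exact hgt _ this
  refine ⟨y, ?_, ?_⟩
  · intro u hu
    by_cases hc : R.ch u = ∅
    · exact hleafy u hc
    · exact hinty u hc hu
  · intro u v huv
    by_cases hcu : R.ch u = ∅ <;> by_cases hcv : R.ch v = ∅
    · refine Multiset.inj_on_of_nodup_map (f := R.wt y)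
        (s := (univ.filter (fun v => R.ch v = ∅)).val) ?_ u (by simpa using hcu) v
        (by simpa using hcv) huv
      rw [hmapL']
      exact (Finset.Icc 1 p).nodup
    · exfalso
      have h1 := hintw v hcv
      have h2 := hleafy u hcu
      rw [← hwtL u hcu] at h2
      omega
    · exfalso
      have h1 := hintw u hcu
      have h2 := hleafy v hcv
      rw [← hwtL v hcv] at h2
      omega
    · refine Multiset.inj_on_of_nodup_map (f := R.wt y)
        (s := (univ.filter (fun v => ¬ R.ch v = ∅)).val) ?_ u (by simpa using hcu) v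
        (by simpa using hcv) huv
      rw [hmapI]
      exact hnd

end Rooted

section Graph

variable {V : Type*} [Fintype V] {T : SimpleGraph V}

omit [Fintype V] in
/-- the parent is unique -/
theorem parent_unique (hT : T.IsTree) (r v a b : V) (ha : T.Adj v a) (hb : T.Adj v b)
    (hda : T.dist r a + 1 = T.dist r v) (hdb : T.dist r b + 1 = T.dist r v) : a = b := by
  obtain ⟨p, hp, hp'⟩ := (hT.connected a r).exists_path_of_dist
  obtain ⟨q, hq, hq'⟩ := (hT.connected b r).exists_path_of_dist
  have h1 : (SimpleGraph.Walk.cons ha p).IsPath := by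
    apply SimpleGraph.Walk.isPath_of_length_eq_dist
    rw [SimpleGraph.Walk.length_cons, hp', SimpleGraph.dist_comm, hda, SimpleGraph.dist_comm]
  have h2 : (SimpleGraph.Walk.cons hb q).IsPath := by
    apply SimpleGraph.Walk.isPath_of_length_eq_dist
    rw [SimpleGraph.Walk.length_cons, hq', SimpleGraph.dist_comm, hdb, SimpleGraph.dist_comm]
  have h3 := (hT.existsUnique_path v r).unique h1 h2
  have h4 := congrArg SimpleGraph.Walk.snd h3
  simpa using h4

omit [Fintype V] in
theorem exists_parent (hT : T.IsTree) (r v : V) (hv : v ≠ r) :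
    ∃ a, T.Adj v a ∧ T.dist r a + 1 = T.dist r v := by
  obtain ⟨p, hp, hp'⟩ := (hT.connected v r).exists_path_of_dist
  cases p with
  | nil => exact absurd rfl hv
  | @cons _ a _ hadj p =>
    refine ⟨a, hadj, ?_⟩
    rw [SimpleGraph.Walk.length_cons] at hp'
    have h1 := SimpleGraph.dist_le p
    rcases hT.dist_eq_dist_add_one_of_adj r hadj with h2 | h2
    · exact h2.symm
    · rw [SimpleGraph.dist_comm] at h1 hp'
      omega

open Classical in
/-- the rooted tree of a tree `T` with a chosen root `r` -/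
noncomputable def toRooted (hT : T.IsTree) (r : V) : Rooted V where
  r := r
  par := fun v => if h : v = r then r else (exists_parent hT r v h).choose
  d := fun v => T.dist r v
  hr := by simp
  hd := by
    intro v hv
    rw [dif_neg hv]
    exact (exists_parent hT r v hv).choose_spec.2

omit [Fintype V] in
theorem toRooted_par (hT : T.IsTree) (r v : V) (hv : v ≠ r) :
    T.Adj v ((toRooted hT r).par v) ∧ T.dist r ((toRooted hT r).par v) + 1 = T.dist r v := by
  have : (toRooted hT r).par v = (exists_parent hT r v hv).choose := by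
    simp only [toRooted]
    rw [dif_neg hv]
  rw [this]
  exact (exists_parent hT r v hv).choose_spec

theorem toRooted_mem_ch (hT : T.IsTree) (r v u : V) :
    u ∈ (toRooted hT r).ch v ↔ T.Adj v u ∧ T.dist r u = T.dist r v + 1 := by
  rw [Rooted.mem_ch]
  constructor
  · rintro ⟨h1, rfl⟩
    have := toRooted_par hT r u h1
    exact ⟨this.1.symm, this.2.symm⟩
  · rintro ⟨h1, h2⟩
    have hu : u ≠ r := by
      rintro rfl
      rw [SimpleGraph.dist_self] at h2
      omega
    refine ⟨hu, ?_⟩
    have := toRooted_par hT r u hu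
    exact parent_unique hT r u _ _ this.1 h1.symm this.2 h2.symm

theorem toRooted_root (hT : T.IsTree) (r w : V) :
    ∃ k, (toRooted hT r).par^[k] w = (toRooted hT r).r := by
  obtain ⟨n, hn⟩ : ∃ n, T.dist r w = n := ⟨_, rfl⟩
  induction n generalizing w with
  | zero =>
    refine ⟨0, ?_⟩
    rw [(hT.connected r w).dist_eq_zero_iff] at hn
    exact hn.symm
  | succ n ih =>
    have hw : w ≠ r := by
      rintro rfl
      rw [SimpleGraph.dist_self] at hn
      omega
    obtain ⟨k, hk⟩ := ih ((toRooted hT r).par w) (by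
      have := (toRooted_par hT r w hw).2
      omega)
    exact ⟨k + 1, hk⟩

theorem nb_root (hT : T.IsTree) (r : V) : nb T r = (toRooted hT r).ch r := by
  ext u
  rw [mem_nb, toRooted_mem_ch]
  constructor
  · intro h
    refine ⟨h, ?_⟩
    rcases hT.dist_eq_dist_add_one_of_adj r h with h2 | h2
    · rw [SimpleGraph.dist_self] at h2
      omega
    · exact h2
  · exact fun h => h.1

theorem nb_other [DecidableEq V] (hT : T.IsTree) (r v : V) (hv : v ≠ r) :
    nb T v = insert ((toRooted hT r).par v) ((toRooted hT r).ch v) := by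
  ext u
  rw [mem_nb, Finset.mem_insert, toRooted_mem_ch]
  have hp := toRooted_par hT r v hv
  constructor
  · intro h
    rcases hT.dist_eq_dist_add_one_of_adj r h with h2 | h2
    · left
      exact parent_unique hT r v _ _ h hp.1 h2.symm hp.2
    · exact Or.inr ⟨h, h2⟩
  · rintro (rfl | h)
    · exact hp.1
    · exact h.1

theorem par_notMem_ch (hT : T.IsTree) (r v : V) (hv : v ≠ r) :
    (toRooted hT r).par v ∉ (toRooted hT r).ch v := by
  rw [toRooted_mem_ch]
  have hp := toRooted_par hT r v hv
  rintro ⟨-, h⟩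
  omega

end Graph

/-- THE BRIDGE -/
theorem bridge (p N : ℕ) (hp : 3 ≤ p)
    (h : ∀ l ch, RValid l ch → l + ch.leaves = p → 1 + ch.size + p ≤ N → Solved p l ch) :
    ∀ n ≤ N, ∀ T : SimpleGraph (Fin n), T.IsTree → numLeaves T = p →
      ∃ w, IrrWeighting T p w := by
  classical
  intro n hn T hT hleaf
  rw [numLeaves_eq] at hleaf
  -- a vertex which is not a leaf
  obtain ⟨r, hr⟩ : ∃ r, r ∉ leafSet T := by
    by_contra hcon
    push Not at hcon
    have huniv : leafSet T = univ := Finset.eq_univ_iff_forall.2 hcon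
    have hsum := T.sum_degrees_eq_twice_card_edges
    have h1 : ∑ v, T.degree v = n := by
      rw [Finset.sum_congr rfl (g := fun _ => 1)]
      · simp
      · intro v _
        rw [degree_eq]
        exact mem_leafSet.1 (hcon v)
    have h2 := hT.card_edgeFinset
    rw [Fintype.card_fin] at h2
    rw [huniv, Finset.card_univ, Fintype.card_fin] at hleaf
    omega
  have hN1 : 3 ≤ n := by
    have := Finset.card_le_univ (leafSet T)
    rw [Fintype.card_fin] at this
    omega
  have hdeg : 2 ≤ (nb T r).card := by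
    rw [mem_leafSet] at hr
    have : 0 < (nb T r).card := by
      rw [Finset.card_pos]
      have : Nontrivial (Fin n) := Fin.nontrivial_iff_two_le.2 (by omega)
      obtain ⟨v, hv⟩ := exists_ne r
      obtain ⟨a, ha, -⟩ := exists_parent hT v r hv.symm
      exact ⟨a, mem_nb.2 ha⟩
    omega
  set R := toRooted hT r with hR
  have hRr : R.r = r := rfl
  have hrr : nb T R.r = R.ch R.r := nb_root hT r
  have hLf : univ.filter (fun v => R.ch v = ∅) = leafSet T := by
    ext v
    rw [Finset.mem_filter, mem_leafSet]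
    by_cases hv : v = r
    · subst hv
      have e := nb_root hT v
      constructor
      · rintro ⟨-, h0⟩
        rw [e, h0] at hdeg
        simp at hdeg
      · intro h0
        rw [h0] at hdeg
        omega
    · rw [nb_other hT r v hv, Finset.card_insert_of_notMem (par_notMem_ch hT r v hv)]
      constructor
      · rintro ⟨-, h0⟩
        rw [h0, Finset.card_empty]
      · intro h0
        refine ⟨Finset.mem_univ _, ?_⟩
        exact Finset.card_eq_zero.1 (Nat.succ_injective h0)
  obtain ⟨y, hy1, hy2⟩ := R.exists_y p N h (by rw [← hrr]; exact hdeg)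
    (fun w => toRooted_root hT r w) (by
      rw [← hleaf, ← hLf]
      congr!) (by rw [Fintype.card_fin]; exact hn)
  -- the weighting
  set w : Sym2 (Fin n) → ℕ := fun e =>
    ∑ u ∈ univ.filter (fun u => u ≠ r ∧ e = s(u, R.par u)), y u with hw
  have hwu : ∀ u, u ≠ r → w s(u, R.par u) = y u := by
    intro u hu
    simp only [hw]
    rw [Finset.sum_eq_single u]
    · intro v hv hvu
      exfalso
      rw [Finset.mem_filter] at hv
      obtain ⟨-, hvr, hv2⟩ := hv
      rw [Sym2.eq_iff] at hv2
      rcases hv2 with ⟨h1, -⟩ | ⟨h1, h2⟩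
      · exact hvu h1.symm
      · have e1 := (toRooted_par hT r u hu).2
        have e2 := (toRooted_par hT r v hvr).2
        rw [← hR] at e1 e2
        rw [h2] at e1
        rw [← h1] at e2
        omega
    · intro hcon
      exact absurd (Finset.mem_filter.2 ⟨Finset.mem_univ _, hu, rfl⟩) hcon
  have hwch : ∀ v, ∀ c ∈ R.ch v, w s(v, c) = y c := by
    intro v c hc
    have := R.mem_ch.1 hc
    rw [Sym2.eq_swap, ← this.2]
    exact hwu c this.1
  have hwdeg : ∀ v, wdeg T w v = R.wt y v := by
    intro v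
    rw [wdeg_eq, Rooted.wt]
    by_cases hv : v = r
    · subst hv
      rw [if_pos hRr.symm, nb_root hT v, zero_add]
      exact Finset.sum_congr rfl (hwch v)
    · rw [if_neg (by rw [hRr]; exact hv), nb_other hT r v hv,
        Finset.sum_insert (par_notMem_ch hT r v hv)]
      congr 1
      · exact hwu v hv
      · exact Finset.sum_congr rfl (hwch v)
  refine ⟨w, ?_, ?_⟩
  · intro e he
    induction e using Sym2.ind with
    | _ a b =>
      rw [SimpleGraph.mem_edgeSet] at he
      by_cases ha : a = r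
      · have hb : b ∈ R.ch a := by
          rw [toRooted_mem_ch]
          refine ⟨he, ?_⟩
          rcases hT.dist_eq_dist_add_one_of_adj r he with h2 | h2
          · rw [ha, SimpleGraph.dist_self] at h2
            omega
          · exact h2
        rw [hwch a b hb]
        exact hy1 b (R.mem_ch.1 hb).1
      · have hb : b ∈ nb T a := mem_nb.2 he
        rw [nb_other hT r a ha, Finset.mem_insert] at hb
        rcases hb with rfl | hb
        · rw [hwu a ha]
          exact hy1 a ha
        · rw [hwch a b hb]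
          exact hy1 b (R.mem_ch.1 hb).1
  · intro u v huv
    rw [hwdeg, hwdeg] at huv
    exact hy2 huv

end Irr37
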