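import Mathlib

/-!
Irregularity strength of a finite simple graph, and the number `n(p)` of MP_033e98_co.
-/

open Finset

namespace Irr37

open Classical in
/-- The weighted degree of `v` in `G` under the edge weighting `w`. -/
noncomputable def wdeg {V : Type*} [Fintype V] (G : SimpleGraph V) (w : Sym2 V → ℕ) (v : V) : ℕ :=
  ∑ u ∈ univ.filter (fun u => G.Adj v u), w s(v, u)

/-- `w` is an irregular weighting of `G` with values in `{1, …, k}` on the edges of `G`
(values off the edge set play no role). -/
def IrrWeighting {V : Type*} [Fintype V] (G : SimpleGraph V) (k : ℕ) (w : Sym2 V → ℕ) : Prop :=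
  (∀ e ∈ G.edgeSet, 1 ≤ w e ∧ w e ≤ k) ∧ Function.Injective (wdeg G w)

/-- The irregularity strength: least `k` such that `G` has an irregular weighting with all edge
weights in `{1, …, k}`. -/
noncomputable def strength {V : Type*} [Fintype V] (G : SimpleGraph V) : ℕ :=
  sInf {k | ∃ w, IrrWeighting G k w}

open Classical in
/-- The number of vertices of degree one. -/
noncomputable def numLeaves {V : Type*} [Fintype V] (G : SimpleGraph V) : ℕ :=
  (univ.filter (fun v => G.degree v = 1)).card

/-- Every tree with exactly `p` leaves and order between `3` and `N` has irregularity strength `p`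
(the tree `K₂` of order two has no irregular weighting and is excluded). -/
def AllTreesUpTo (p N : ℕ) : Prop :=
  ∀ n ≤ N, 3 ≤ n → ∀ T : SimpleGraph (Fin n), T.IsTree → numLeaves T = p → strength T = p

/-- target -/
def Target : Prop :=
  ∀ p : ℕ, 2 ≤ p → IsGreatest {N | AllTreesUpTo p N} (if p = 2 then 4 else 2 * p + 1)

end Irr37
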