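import Pool.Agent.Irr37.Rep

/-!
The compensated greedy lemma (helper34's Theorem G) on labelled rooted forests.
-/

open Finset

namespace Irr37

namespace LF

/-- the reserved weights: a bottom with leaf sum below `p` gets the label `p` on its upper edge -/
def resv (p : ℕ) : LF → Multiset ℕ
  | nil => 0
  | cons A nil sib => if A.sum < p then (A.sum + p) ::ₘ sib.resv p else sib.resv p
  | cons _ (cons B ch sb) sib => (cons B ch sb).resv p + sib.resv p

/-- the number of vertices that are not reserved bottoms -/
def nres (p : ℕ) : LF → ℕ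
  | nil => 0
  | cons A nil sib => if A.sum < p then sib.nres p else 1 + sib.nres p
  | cons _ (cons B ch sb) sib => 1 + (cons B ch sb).nres p + sib.nres p

end LF

/-- the compensation property -/
def Cert (p : ℕ) (V : Finset ℕ) (x : ℕ) : Prop :=
  ∀ s, x ≤ s → s < p → p - s ≤ (V.filter (fun u => p + s < u)).card

theorem Cert.mono {p : ℕ} {V V' : Finset ℕ} {x x' : ℕ} (h : Cert p V x) (hV : V ⊆ V')
    (hx : x ≤ x') : Cert p V' x' := by
  intro s h1 h2
  refine (h s (hx.trans h1) h2).trans (Finset.card_le_card ?_)
  intro u hu
  rw [Finset.mem_filter] at hu ⊢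
  exact ⟨hV hu.1, hu.2⟩

theorem Cert.of_le {p : ℕ} {V : Finset ℕ} {x : ℕ} (h : p ≤ x) : Cert p V x := by
  intro s h1 h2
  omega

/-- one greedy step: a vertex with sum `S` of its other edges -/
theorem greedy_step (p : ℕ) (S : ℕ) (U : Finset ℕ) (hU : U.card < p)
    (hS : S < p → p - S ≤ (U.filter (fun u => p + S < u)).card) :
    ∃ y, 1 ≤ y ∧ y ≤ p ∧ p < S + y ∧ S + y ∉ U ∧
      (∀ y', y < y' → y' ≤ p → S + y' ∈ U) := by
  classical
  set Y : Finset ℕ := (Icc 1 p).filter (fun y => p < S + y ∧ S + y ∉ U) with hY
  have hne : Y.Nonempty := by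
    by_contra hcon
    rw [Finset.not_nonempty_iff_eq_empty] at hcon
    have hall : ∀ y, 1 ≤ y → y ≤ p → p < S + y → S + y ∈ U := by
      intro y h1 h2 h3
      by_contra h4
      have : y ∈ Y := by
        rw [hY, Finset.mem_filter, Finset.mem_Icc]
        exact ⟨⟨h1, h2⟩, h3, h4⟩
      rw [hcon] at this
      exact absurd this (Finset.notMem_empty _)
    rcases Nat.lt_or_ge S p with hSp | hSp
    · have h5 := hS hSp
      have h6 : (Ioc p (S + p)) ⊆ U.filter (fun u => ¬ (p + S < u)) := by
        intro u hu
        rw [Finset.mem_Ioc] at hu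
        rw [Finset.mem_filter]
        refine ⟨?_, by omega⟩
        have := hall (u - S) (by omega) (by omega) (by omega)
        rwa [Nat.add_sub_cancel' (by omega)] at this
      have h7 := Finset.card_le_card h6
      rw [Nat.card_Ioc] at h7
      have h8 := Finset.card_filter_add_card_filter_not (s := U) (fun u => p + S < u)
      omega
    · have h6 : (Ioc S (S + p)) ⊆ U := by
        intro u hu
        rw [Finset.mem_Ioc] at hu
        have := hall (u - S) (by omega) (by omega) (by omega)
        rwa [Nat.add_sub_cancel' (by omega)] at this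
      have h7 := Finset.card_le_card h6
      rw [Nat.card_Ioc] at h7
      omega
  refine ⟨Y.max' hne, ?_⟩
  have hm := Finset.mem_filter.mp (Y.max'_mem hne)
  rw [Finset.mem_Icc] at hm
  refine ⟨hm.1.1, hm.1.2, hm.2.1, hm.2.2, ?_⟩
  intro y' h1 h2
  by_contra h3
  have : y' ∈ Y := by
    rw [hY, Finset.mem_filter, Finset.mem_Icc]
    refine ⟨⟨by omega, h2⟩, ?_, h3⟩
    have := hm.2.1
    omega
  have := Y.le_max' y' this
  omega

/-- the certificate produced by a greedy step -/
theorem cert_step (p S y : ℕ) (U V : Finset ℕ) (hUV : U ⊆ V)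
    (hS : S < p → Cert p U S) (hrun : ∀ y', y < y' → y' ≤ p → S + y' ∈ U) : Cert p V y := by
  classical
  refine Cert.mono (V := U) ?_ hUV le_rfl
  intro s h1 h2
  rcases Nat.lt_or_ge S p with hSp | hSp
  · rcases Nat.lt_or_ge s S with hsS | hsS
    · have h3 := hS hSp S le_rfl hSp
      have h4 : (Ioc (p + s) (p + S)) ∪ U.filter (fun u => p + S < u) ⊆
          U.filter (fun u => p + s < u) := by
        intro u hu
        rw [Finset.mem_union] at hu
        rcases hu with hu | hu
        · rw [Finset.mem_Ioc] at hu
          rw [Finset.mem_filter]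
          refine ⟨?_, hu.1⟩
          have := hrun (u - S) (by omega) (by omega)
          rwa [Nat.add_sub_cancel' (by omega)] at this
        · rw [Finset.mem_filter] at hu ⊢
          exact ⟨hu.1, by omega⟩
      have h5 := Finset.card_le_card h4
      rw [Finset.card_union_of_disjoint, Nat.card_Ioc] at h5
      · omega
      · rw [Finset.disjoint_left]
        intro u hu hu'
        rw [Finset.mem_Ioc] at hu
        rw [Finset.mem_filter] at hu'
        omega
    · exact hS hSp s hsS h2
  · have h4 : (Ioc (S + s) (S + p)) ⊆ U.filter (fun u => p + s < u) := by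
      intro u hu
      rw [Finset.mem_Ioc] at hu
      rw [Finset.mem_filter]
      refine ⟨?_, by omega⟩
      have := hrun (u - S) (by omega) (by omega)
      rwa [Nat.add_sub_cancel' (by omega)] at this
    have h5 := Finset.card_le_card h4
    rw [Nat.card_Ioc] at h5
    omega

/-- The compensated greedy lemma. -/
theorem greedy (p : ℕ) (f : LF) : ∀ (U : Finset ℕ), (∀ w ∈ f.resv p, w ∈ U) →
    U.card + f.nres p ≤ p →
    ∃ (x : ℕ) (W : Multiset ℕ), Sol p f x (f.resv p + W) ∧ W.Nodup ∧ (∀ w ∈ W, w ∉ U ∧ p < w) ∧
      W.card = f.nres p ∧ (f ≠ LF.nil → Cert p (U ∪ W.toFinset) x) := by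
  classical
  induction f with
  | nil =>
    intro U _ _
    refine ⟨0, 0, by simpa [LF.resv] using Sol.nil, by simp, by simp, by simp [LF.nres], ?_⟩
    intro h
    exact absurd rfl h
  | cons A ch sib ihc ihs =>
    intro U hres hcard
    by_cases hrv : ch = LF.nil ∧ A.sum < p
    · obtain ⟨rfl, hA⟩ := hrv
      have e1 : (LF.cons A LF.nil sib).resv p = (A.sum + p) ::ₘ sib.resv p := by
        simp [LF.resv, hA]
      have e2 : (LF.cons A LF.nil sib).nres p = sib.nres p := by simp [LF.nres, hA]
      rw [e1] at hres ⊢
      rw [e2] at hcard ⊢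
      obtain ⟨x, W, h1, h2, h3, h4, h5⟩ := ihs U (fun w hw => hres w (Multiset.mem_cons_of_mem hw))
        hcard
      refine ⟨p + x, W, ?_, h2, h3, h4, fun _ => Cert.of_le (by omega)⟩
      have hp1 : 1 ≤ p := by omega
      have := Sol.cons (A := A) hp1 le_rfl Sol.nil h1
      simpa [Multiset.cons_add] using this
    · -- nonreserved
      have hrv' : ch = LF.nil → p ≤ A.sum := by
        intro hc
        by_contra hh
        exact hrv ⟨hc, by omega⟩
      have e1 : (LF.cons A ch sib).resv p = ch.resv p + sib.resv p := by
        cases ch with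
        | nil =>
          have := hrv' rfl
          simp [LF.resv, Nat.not_lt.mpr this]
        | cons B c s => simp [LF.resv]
      have e2 : (LF.cons A ch sib).nres p = 1 + ch.nres p + sib.nres p := by
        cases ch with
        | nil =>
          have := hrv' rfl
          simp [LF.nres, Nat.not_lt.mpr this]
        | cons B c s => simp [LF.nres]
      rw [e1] at hres ⊢
      rw [e2] at hcard ⊢
      obtain ⟨xc, Wc, c1, c2, c3, c4, c5⟩ := ihc U
        (fun w hw => hres w (Multiset.mem_add.mpr (Or.inl hw))) (by omega)
      set U1 : Finset ℕ := U ∪ Wc.toFinset with hU1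
      have hU1c : U1.card ≤ U.card + ch.nres p := by
        refine (Finset.card_union_le _ _).trans ?_
        have := Multiset.toFinset_card_le Wc
        omega
      obtain ⟨xs, Ws, s1, s2, s3, s4, s5⟩ := ihs U1
        (fun w hw => Finset.mem_union_left _ (hres w (Multiset.mem_add.mpr (Or.inr hw))))
        (by omega)
      set U2 : Finset ℕ := U1 ∪ Ws.toFinset with hU2
      have hU2c : U2.card ≤ U1.card + sib.nres p := by
        refine (Finset.card_union_le _ _).trans ?_
        have := Multiset.toFinset_card_le Ws
        omega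
      have hsub : U1 ⊆ U2 := Finset.subset_union_left
      -- the certificate for S
      have hcS : A.sum + xc < p → Cert p U2 (A.sum + xc) := by
        intro hlt
        have hne : ch ≠ LF.nil := by
          intro hc
          have := hrv' hc
          omega
        exact (c5 hne).mono hsub (by omega)
      obtain ⟨y, y1, y2, y3, y4, y5⟩ := greedy_step p (A.sum + xc) U2 (by omega)
        (fun hlt => hcS hlt _ le_rfl hlt)
      refine ⟨y + xs, (A.sum + xc + y) ::ₘ (Wc + Ws), ?_, ?_, ?_, ?_, ?_⟩
      · have := Sol.cons (A := A) y1 y2 c1 s1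
        convert this using 1
        simp only [← Multiset.singleton_add]
        abel
      · rw [Multiset.nodup_cons, Multiset.nodup_add]
        refine ⟨?_, c2, s2, ?_⟩
        · intro hm
          rw [Multiset.mem_add] at hm
          apply y4
          rw [hU2, hU1, Finset.mem_union, Finset.mem_union]
          rcases hm with hm | hm
          · exact Or.inl (Or.inr (Multiset.mem_toFinset.mpr hm))
          · exact Or.inr (Multiset.mem_toFinset.mpr hm)
        · rw [Multiset.disjoint_left]
          intro a ha ha'
          apply (s3 a ha').1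
          rw [hU1, Finset.mem_union]
          exact Or.inr (Multiset.mem_toFinset.mpr ha)
      · intro w hw
        rw [Multiset.mem_cons, Multiset.mem_add] at hw
        rcases hw with rfl | hw | hw
        · refine ⟨?_, y3⟩
          intro hh
          exact y4 (hsub (Finset.mem_union_left _ hh))
        · exact c3 w hw
        · refine ⟨?_, (s3 w hw).2⟩
          intro hh
          exact (s3 w hw).1 (Finset.mem_union_left _ hh)
      · rw [Multiset.card_cons, Multiset.card_add, c4, s4]
        omega
      · intro _
        have hV : U2 ⊆ U ∪ ((A.sum + xc + y) ::ₘ (Wc + Ws)).toFinset := by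
          intro u hu
          rw [hU2, hU1, Finset.mem_union, Finset.mem_union] at hu
          rw [Finset.mem_union, Multiset.mem_toFinset, Multiset.mem_cons, Multiset.mem_add]
          rcases hu with (hu | hu) | hu
          · exact Or.inl hu
          · exact Or.inr (Or.inr (Or.inl (Multiset.mem_toFinset.mp hu)))
          · exact Or.inr (Or.inr (Or.inr (Multiset.mem_toFinset.mp hu)))
        exact (cert_step p (A.sum + xc) y U2 _ hV hcS y5).mono (Finset.Subset.refl _) (by omega)

end Irr37
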