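import Pool.Agent.Irr37.Defs

/-!
Rooted-forest representation of trees, for MP_033e98_co.

`RF` is the type of ordered rooted forests; `RF.cons l ch sib` is a forest whose first tree has a
root carrying `l` leaf edges and child forest `ch`, followed by the forest `sib`.
(Only the internal vertices of the tree `T` are vertices of the forest.)

`LF` is the same with the multiset of leaf labels at every vertex.
-/

namespace Irr37

/-- shapes of rooted forests; the number is the number of leaves attached to the vertex -/
inductive RF where
  | nil : RF
  | cons (l : ℕ) (ch sib : RF) : RF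

/-- rooted forests with leaf labels -/
inductive LF where
  | nil : LF
  | cons (A : Multiset ℕ) (ch sib : LF) : LF

namespace RF

/-- number of vertices of the forest -/
def size : RF → ℕ
  | nil => 0
  | cons _ ch sib => 1 + ch.size + sib.size

/-- total number of leaves -/
def leaves : RF → ℕ
  | nil => 0
  | cons l ch sib => l + ch.leaves + sib.leaves

/-- every vertex without children carries a leaf -/
def Valid : RF → Prop
  | nil => True
  | cons l ch sib => (ch = nil → 1 ≤ l) ∧ ch.Valid ∧ sib.Valid

/-- number of roots -/
def width : RF → ℕ
  | nil => 0
  | cons _ _ sib => 1 + sib.width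

end RF

namespace LF

def shape : LF → RF
  | nil => RF.nil
  | cons A ch sib => RF.cons A.card ch.shape sib.shape

/-- all leaf labels -/
def labels : LF → Multiset ℕ
  | nil => 0
  | cons A ch sib => A + ch.labels + sib.labels

end LF

/-- `Sol p f x W`: the edges from the roots of `f` upwards and all inner edges of `f` can be
labelled with numbers in `[1,p]` so that the labels of the top edges add up to `x` and `W` is the
multiset of the vertex weights. -/
inductive Sol (p : ℕ) : LF → ℕ → Multiset ℕ → Prop
  | nil : Sol p LF.nil 0 0
  | cons {A : Multiset ℕ} {ch sib : LF} {x x' y : ℕ} {W W' : Multiset ℕ}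
      (h1 : 1 ≤ y) (h2 : y ≤ p) (h : Sol p ch x W) (h' : Sol p sib x' W') :
      Sol p (LF.cons A ch sib) (y + x') ((A.sum + x + y) ::ₘ (W + W'))

/-- the tree with root carrying `l` leaves and child forest `ch` has a good weighting -/
def Solved (p l : ℕ) (ch : RF) : Prop :=
  ∃ (A : Multiset ℕ) (f : LF) (x : ℕ) (W : Multiset ℕ), A.card = l ∧ f.shape = ch ∧
    A + f.labels = (Finset.Icc 1 p).val ∧ Sol p f x W ∧
    ((A.sum + x) ::ₘ W).Nodup ∧ ∀ w ∈ (A.sum + x) ::ₘ W, p < w

/-- the tree given by a root with `l` leaves and child forest `ch` is legitimate:
all internal vertices have degree at least two -/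
def RValid (l : ℕ) (ch : RF) : Prop :=
  ch.Valid ∧ 2 ≤ l + ch.width

end Irr37
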