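import Pool.Agent.Irr37.Rep

/-!
Re-rooting and permuting children, for MP_033e98_co.

`RF.Perm f f'`: `f'` arises from `f` by permuting the top-level trees.
`Eqv (l, f) (l', f')`: the tree with root carrying `l` leaves and child forest `f` and the tree with
root carrying `l'` leaves and child forest `f'` are the same unrooted tree.
`Occ f l ch`: the forest `f` has a vertex carrying `l` leaves with child forest `ch`.
-/

namespace Irr37

namespace RF

/-- permutations of the top-level trees of a forest -/
inductive Perm : RF → RF → Prop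
  | refl (f : RF) : Perm f f
  | cons (l : ℕ) (ch : RF) {s s' : RF} (h : Perm s s') : Perm (RF.cons l ch s) (RF.cons l ch s')
  | swap (l l' : ℕ) (ch ch' s : RF) :
      Perm (RF.cons l ch (RF.cons l' ch' s)) (RF.cons l' ch' (RF.cons l ch s))
  | trans {f g h : RF} (h1 : Perm f g) (h2 : Perm g h) : Perm f h

theorem Perm.symm {f g : RF} (h : Perm f g) : Perm g f := by
  induction h with
  | refl f => exact Perm.refl f
  | cons l ch _ ih => exact Perm.cons l ch ih
  | swap l l' ch ch' s => exact Perm.swap l' l ch' ch s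
  | trans _ _ ih1 ih2 => exact Perm.trans ih2 ih1

theorem Perm.size_eq {f g : RF} (h : Perm f g) : f.size = g.size := by
  induction h with
  | refl f => rfl
  | cons l ch _ ih => simp only [size, ih]
  | swap l l' ch ch' s => simp only [size]; omega
  | trans _ _ ih1 ih2 => exact ih1.trans ih2

theorem Perm.leaves_eq {f g : RF} (h : Perm f g) : f.leaves = g.leaves := by
  induction h with
  | refl f => rfl
  | cons l ch _ ih => simp only [leaves, ih]
  | swap l l' ch ch' s => simp only [leaves]; omega
  | trans _ _ ih1 ih2 => exact ih1.trans ih2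

theorem Perm.width_eq {f g : RF} (h : Perm f g) : f.width = g.width := by
  induction h with
  | refl f => rfl
  | cons l ch _ ih => simp only [width, ih]
  | swap l l' ch ch' s => simp only [width]
  | trans _ _ ih1 ih2 => exact ih1.trans ih2

theorem Perm.valid {f g : RF} (h : Perm f g) : f.Valid → g.Valid := by
  induction h with
  | refl f => exact id
  | cons l ch _ ih => exact fun hv => ⟨hv.1, hv.2.1, ih hv.2.2⟩
  | swap l l' ch ch' s =>
    exact fun hv => ⟨hv.2.2.1, hv.2.2.2.1, hv.1, hv.2.1, hv.2.2.2.2⟩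
  | trans _ _ ih1 ih2 => exact fun hv => ih2 (ih1 hv)

/-- `f` has a top-level tree whose root carries `l` leaves and has child forest `ch` -/
inductive Top : RF → ℕ → RF → Prop
  | here (l : ℕ) (ch sib : RF) : Top (RF.cons l ch sib) l ch
  | right (l : ℕ) (ch : RF) {sib : RF} {l' : ℕ} {ch' : RF} (h : Top sib l' ch') :
      Top (RF.cons l ch sib) l' ch'

/-- `f` has a vertex that carries `l` leaves and has child forest `ch` -/
inductive Occ : RF → ℕ → RF → Prop
  | here (l : ℕ) (ch sib : RF) : Occ (RF.cons l ch sib) l ch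
  | down (l : ℕ) {ch : RF} (sib : RF) {l' : ℕ} {ch' : RF} (h : Occ ch l' ch') :
      Occ (RF.cons l ch sib) l' ch'
  | right (l : ℕ) (ch : RF) {sib : RF} {l' : ℕ} {ch' : RF} (h : Occ sib l' ch') :
      Occ (RF.cons l ch sib) l' ch'

theorem Top.occ {f : RF} {l : ℕ} {ch : RF} (h : Top f l ch) : Occ f l ch := by
  induction h with
  | here l ch sib => exact Occ.here l ch sib
  | right l ch _ ih => exact Occ.right l ch ih

theorem Top.perm {f : RF} {l : ℕ} {ch : RF} (h : Top f l ch) :
    ∃ rest, Perm f (RF.cons l ch rest) := by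
  induction h with
  | here l ch sib => exact ⟨sib, Perm.refl _⟩
  | right l ch _ ih =>
    obtain ⟨rest, hr⟩ := ih
    exact ⟨RF.cons l ch rest, (Perm.cons l ch hr).trans (Perm.swap _ _ _ _ _)⟩

theorem Perm.top {f g : RF} (h : Perm f g) {l : ℕ} {ch : RF} : Top f l ch → Top g l ch := by
  induction h with
  | refl f => exact id
  | cons l ch _ ih =>
    intro ht
    cases ht with
    | here => exact Top.here _ _ _
    | right _ _ h => exact Top.right _ _ (ih h)
  | swap l l' ch ch' s =>
    intro ht
    cases ht with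
    | here => exact Top.right _ _ (Top.here _ _ _)
    | right _ _ h =>
      cases h with
      | here => exact Top.here _ _ _
      | right _ _ h => exact Top.right _ _ (Top.right _ _ h)
  | trans _ _ ih1 ih2 => exact fun ht => ih2 (ih1 ht)

theorem Occ.trans {f : RF} {l : ℕ} {ch : RF} (h : Occ f l ch) {l' : ℕ} {ch' : RF}
    (h' : Occ ch l' ch') : Occ f l' ch' := by
  induction h with
  | here l ch sib => exact Occ.down l sib h'
  | down l sib _ ih => exact Occ.down l sib (ih h')
  | right l ch _ ih => exact Occ.right l ch (ih h')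

theorem Perm.occ {f g : RF} (h : Perm f g) {l : ℕ} {ch : RF} : Occ f l ch → Occ g l ch := by
  induction h with
  | refl f => exact id
  | cons l ch _ ih =>
    intro ht
    cases ht with
    | here => exact Occ.here _ _ _
    | down _ _ h => exact Occ.down _ _ h
    | right _ _ h => exact Occ.right _ _ (ih h)
  | swap l l' ch ch' s =>
    intro ht
    cases ht with
    | here => exact Occ.right _ _ (Occ.here _ _ _)
    | down _ _ h => exact Occ.right _ _ (Occ.down _ _ h)
    | right _ _ h =>
      cases h with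
      | here => exact Occ.here _ _ _
      | down _ _ h => exact Occ.down _ _ h
      | right _ _ h => exact Occ.right _ _ (Occ.right _ _ h)
  | trans _ _ ih1 ih2 => exact fun ht => ih2 (ih1 ht)

end RF

/-- the same unrooted tree -/
inductive Eqv : ℕ → RF → ℕ → RF → Prop
  | perm (l : ℕ) {f f' : RF} (h : RF.Perm f f') : Eqv l f l f'
  | reroot (l l' : ℕ) (c s : RF) : Eqv l (RF.cons l' c s) l' (RF.cons l s c)
  | trans {l₁ l₂ l₃ : ℕ} {f₁ f₂ f₃ : RF} (h1 : Eqv l₁ f₁ l₂ f₂) (h2 : Eqv l₂ f₂ l₃ f₃) :
      Eqv l₁ f₁ l₃ f₃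

theorem Eqv.refl (l : ℕ) (f : RF) : Eqv l f l f := Eqv.perm l (RF.Perm.refl f)

theorem Eqv.symm {l l' : ℕ} {f f' : RF} (h : Eqv l f l' f') : Eqv l' f' l f := by
  induction h with
  | perm l h => exact Eqv.perm l h.symm
  | reroot l l' c s => exact Eqv.reroot l' l s c
  | trans _ _ ih1 ih2 => exact Eqv.trans ih2 ih1

theorem Eqv.size_eq {l l' : ℕ} {f f' : RF} (h : Eqv l f l' f') : f.size = f'.size := by
  induction h with
  | perm l h => exact h.size_eq
  | reroot l l' c s => simp only [RF.size]; omega
  | trans _ _ ih1 ih2 => exact ih1.trans ih2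

theorem Eqv.leaves_eq {l l' : ℕ} {f f' : RF} (h : Eqv l f l' f') :
    l + f.leaves = l' + f'.leaves := by
  induction h with
  | perm l h => rw [h.leaves_eq]
  | reroot l l' c s => simp only [RF.leaves]; omega
  | trans _ _ ih1 ih2 => exact ih1.trans ih2

theorem RF.width_pos {f : RF} (h : f ≠ RF.nil) : 1 ≤ f.width := by
  cases f with
  | nil => exact absurd rfl h
  | cons l ch sib => simp only [RF.width]; omega

theorem Eqv.rvalid {l l' : ℕ} {f f' : RF} (h : Eqv l f l' f') : RValid l f → RValid l' f' := by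
  induction h with
  | perm l h => exact fun hv => ⟨h.valid hv.1, h.width_eq ▸ hv.2⟩
  | reroot l l' c s =>
    rintro ⟨⟨h1, h2, h3⟩, h4⟩
    simp only [RF.width] at h4
    refine ⟨⟨?_, h3, h2⟩, ?_⟩
    · rintro rfl
      simp only [RF.width] at h4
      omega
    · simp only [RF.width]
      by_cases hc : c = RF.nil
      · have := h1 hc
        omega
      · have := RF.width_pos hc
        omega
  | trans _ _ ih1 ih2 => exact fun hv => ih2 (ih1 hv)

/-- re-rooting at the first child -/
theorem Solved.reroot {p l l' : ℕ} {c s : RF} (h : Solved p l (RF.cons l' c s)) :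
    Solved p l' (RF.cons l s c) := by
  obtain ⟨A, f, x, W, hA, hf, hlab, hsol, hnd, hp⟩ := h
  cases f with
  | nil => simp [LF.shape] at hf
  | cons A' fc fs =>
    simp only [LF.shape, RF.cons.injEq] at hf
    obtain ⟨hA', hfc, hfs⟩ := hf
    cases hsol with
    | @cons _ _ _ xc xs y Wc Ws h1 h2 hc hs =>
      have hW : ((A.sum + (y + xs)) ::ₘ (A'.sum + xc + y) ::ₘ (Wc + Ws)) =
          ((A'.sum + (y + xc)) ::ₘ (A.sum + xs + y) ::ₘ (Ws + Wc)) := by
        rw [Multiset.cons_swap, add_comm Wc Ws]
        congr 1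
        · omega
        · congr 1
          omega
      refine ⟨A', LF.cons A fs fc, y + xc, _, hA', ?_, ?_, Sol.cons h1 h2 hs hc, ?_, ?_⟩
      · simp only [LF.shape, hA, hfc, hfs]
      · rw [← hlab]
        simp only [LF.labels]
        abel
      · rw [← hW]; exact hnd
      · rw [← hW]; exact hp

/-- permuting the top-level trees of a labelled forest -/
theorem Sol.perm {p : ℕ} {g g' : RF} (h : RF.Perm g g') :
    ∀ (f : LF) (x : ℕ) (W : Multiset ℕ), f.shape = g → Sol p f x W →
      ∃ f' : LF, f'.shape = g' ∧ f'.labels = f.labels ∧ Sol p f' x W := by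
  induction h with
  | refl g => exact fun f x W hf hs => ⟨f, hf, rfl, hs⟩
  | cons l ch _ ih =>
    intro f x W hf hs
    cases f with
    | nil => simp [LF.shape] at hf
    | cons A fc fs =>
      simp only [LF.shape, RF.cons.injEq] at hf
      obtain ⟨hA, hfc, hfs⟩ := hf
      cases hs with
      | @cons _ _ _ xc xs y Wc Ws h1 h2 hc hs =>
        obtain ⟨f', h3, h4, h5⟩ := ih fs xs Ws hfs hs
        refine ⟨LF.cons A fc f', ?_, ?_, Sol.cons h1 h2 hc h5⟩
        · simp only [LF.shape, hA, hfc, h3]
        · simp only [LF.labels, h4]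
  | swap l l' ch ch' s =>
    intro f x W hf hs
    cases f with
    | nil => simp [LF.shape] at hf
    | cons A fc fs =>
      cases fs with
      | nil => simp [LF.shape] at hf
      | cons A' fc' fs' =>
        simp only [LF.shape, RF.cons.injEq] at hf
        obtain ⟨hA, hfc, hA', hfc', hfs'⟩ := hf
        cases hs with
        | @cons _ _ _ xc xs y Wc Ws h1 h2 hc hs =>
          cases hs with
          | @cons _ _ _ xc' xs' y' Wc' Ws' h1' h2' hc' hs' =>
            have h3 := Sol.cons (A := A') h1' h2' hc' (Sol.cons (A := A) h1 h2 hc hs')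
            refine ⟨LF.cons A' fc' (LF.cons A fc fs'), ?_, ?_, ?_⟩
            · simp only [LF.shape, hA, hfc, hA', hfc', hfs']
            · simp only [LF.labels]
              abel
            · have e1 : y' + (y + xs') = y + (y' + xs') := by omega
              have e2 : (A'.sum + xc' + y') ::ₘ (Wc' + (A.sum + xc + y) ::ₘ (Wc + Ws')) =
                  (A.sum + xc + y) ::ₘ (Wc + (A'.sum + xc' + y') ::ₘ (Wc' + Ws')) := by
                rw [Multiset.add_cons, Multiset.add_cons, Multiset.cons_swap]
                congr 2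
                abel
              rw [e1, e2] at h3
              exact h3
  | trans _ _ ih1 ih2 =>
    intro f x W hf hs
    obtain ⟨f', h1, h2, h3⟩ := ih1 f x W hf hs
    obtain ⟨f'', h4, h5, h6⟩ := ih2 f' x W h1 h3
    exact ⟨f'', h4, h5.trans h2, h6⟩

theorem Solved.perm {p l : ℕ} {g g' : RF} (hg : RF.Perm g g') (h : Solved p l g) :
    Solved p l g' := by
  obtain ⟨A, f, x, W, hA, hf, hlab, hsol, hnd, hp⟩ := h
  obtain ⟨f', h1, h2, h3⟩ := Sol.perm hg f x W hf hsol
  exact ⟨A, f', x, W, hA, h1, by rw [h2, hlab], h3, hnd, hp⟩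

theorem Eqv.solved {p l l' : ℕ} {f f' : RF} (h : Eqv l f l' f') :
    Solved p l f → Solved p l' f' := by
  induction h with
  | perm l h => exact fun hs => hs.perm h
  | reroot l l' c s => exact fun hs => hs.reroot
  | trans _ _ ih1 ih2 => exact fun hs => ih2 (ih1 hs)

theorem Eqv.solved_iff {p l l' : ℕ} {f f' : RF} (h : Eqv l f l' f') :
    Solved p l f ↔ Solved p l' f' := ⟨h.solved, h.symm.solved⟩

/-- `c` is the list of the last top-level trees of `f` -/
inductive RF.Suffix : RF → RF → Prop
  | refl (f : RF) : RF.Suffix f f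
  | cons (l : ℕ) (ch : RF) {c f : RF} (h : RF.Suffix c f) : RF.Suffix c (RF.cons l ch f)

theorem RF.Suffix.top {b : ℕ} {c sib f : RF} (h : RF.Suffix (RF.cons b c sib) f) :
    RF.Top f b c := by
  generalize hg : RF.cons b c sib = g at h
  induction h with
  | refl f => subst hg; exact RF.Top.here _ _ _
  | cons l ch _ ih => exact RF.Top.right _ _ (ih hg)

theorem RF.Suffix.tail {b : ℕ} {c sib f : RF} (h : RF.Suffix (RF.cons b c sib) f) :
    RF.Suffix sib f := by
  generalize hg : RF.cons b c sib = g at h
  induction h with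
  | refl f => subst hg; exact RF.Suffix.cons _ _ (RF.Suffix.refl _)
  | cons l ch _ ih => exact RF.Suffix.cons _ _ (ih hg)

theorem Eqv.of_top {f : RF} {l' : ℕ} {ch' : RF} (h : RF.Top f l' ch') (l : ℕ) :
    ∃ rest, Eqv l f l' (RF.cons l rest ch') := by
  obtain ⟨rest, hr⟩ := h.perm
  exact ⟨rest, (Eqv.perm l hr).trans (Eqv.reroot l l' ch' rest)⟩

theorem Eqv.of_occ_suffix {c : RF} {l' : ℕ} {ch' : RF} (h : RF.Occ c l' ch') :
    ∀ (l : ℕ) (f : RF), RF.Suffix c f → ∃ m rest, Eqv l f l' (RF.cons m rest ch') := by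
  induction h with
  | here l' ch' sib =>
    intro l f hs
    obtain ⟨rest, hr⟩ := Eqv.of_top hs.top l
    exact ⟨l, rest, hr⟩
  | down b sib _ ih =>
    intro l f hs
    obtain ⟨rest, hr⟩ := Eqv.of_top hs.top l
    obtain ⟨m, rest', hr'⟩ := ih b _ (RF.Suffix.cons l rest (RF.Suffix.refl _))
    exact ⟨m, rest', hr.trans hr'⟩
  | right b c _ ih =>
    intro l f hs
    exact ih l f hs.tail

/-- Re-rooting at any vertex: its parent becomes the first child, followed by its children. -/
theorem Eqv.of_occ {f : RF} {l' : ℕ} {ch' : RF} (h : RF.Occ f l' ch') (l : ℕ) :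
    ∃ m rest, Eqv l f l' (RF.cons m rest ch') :=
  Eqv.of_occ_suffix h l f (RF.Suffix.refl f)

/-- Re-rooting at the lower end of an edge below the root level: `u` (with `l''` leaves and child
forest `ch''`) is a child of the vertex with `l'` leaves and child forest `ch'`; the new root is
`u`, its first child is its old parent. -/
theorem Eqv.of_edge {f : RF} {l' : ℕ} {ch' : RF} (h : RF.Occ f l' ch') {l'' : ℕ} {ch'' : RF}
    (h' : RF.Top ch' l'' ch'') (l : ℕ) :
    ∃ m rest rest', RF.Perm ch' (RF.cons l'' ch'' rest') ∧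
      Eqv l f l' (RF.cons l'' ch'' (RF.cons m rest rest')) ∧
      Eqv l f l'' (RF.cons l' (RF.cons m rest rest') ch'') := by
  obtain ⟨m, rest, h1⟩ := Eqv.of_occ h l
  obtain ⟨rest', h2⟩ := h'.perm
  have h3 : RF.Perm (RF.cons m rest ch') (RF.cons l'' ch'' (RF.cons m rest rest')) :=
    (RF.Perm.cons m rest h2).trans (RF.Perm.swap _ _ _ _ _)
  have h4 := h1.trans (Eqv.perm l' h3)
  exact ⟨m, rest, rest', h2, h4, h4.trans (Eqv.reroot _ _ _ _)⟩

end Irr37
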